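import Mathlib

namespace Pool.Agent.MP_ed3b92_lc

/-- De Morgan formulas on `n` variables: binary trees with AND / OR at inner nodes and
literals or constants at the leaves. `lit i true` is `x_i`, `lit i false` is its negation. -/
inductive Fm (n : ℕ) : Type
  | lit (i : Fin n) (b : Bool) : Fm n
  | const (b : Bool) : Fm n
  | and (f g : Fm n) : Fm n
  | or (f g : Fm n) : Fm n

/-- Size: the number of leaves. -/
def Fm.size {n : ℕ} : Fm n → ℕ
  | .lit _ _ => 1
  | .const _ => 1
  | .and f g => f.size + g.size
  | .or f g => f.size + g.size

/-- The Boolean function computed by a formula. -/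
def Fm.eval {n : ℕ} : Fm n → (Fin n → Bool) → Bool
  | .lit i b, x => x i == b
  | .const b, _ => b
  | .and f g, x => f.eval x && g.eval x
  | .or f g, x => f.eval x || g.eval x

/-- Node labels of a diagram with `m` nodes: a sink with an output bit; a decision node testing
`x_i` with 0-child `a` and 1-child `b`; a gate applying a binary Boolean operation `h` to the
values of its children `a`, `b`. -/
inductive Nd (n m : ℕ) : Type
  | sink (c : Bool) : Nd n m
  | dec (i : Fin n) (a b : Fin m) : Nd n m
  | gate (h : Bool → Bool → Bool) (a b : Fin m) : Nd n m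

/-- A diagram on `n` variables with `m` nodes (sinks included). -/
structure DD (n m : ℕ) where
  lab : Fin m → Nd n m
  root : Fin m

/-- `v` is a child of `u`. -/
def DD.Edge {n m : ℕ} (P : DD n m) (u v : Fin m) : Prop :=
  match P.lab u with
  | .sink _ => False
  | .dec _ a b => v = a ∨ v = b
  | .gate _ a b => v = a ∨ v = b

/-- Some decision node reachable from `u` (possibly `u` itself) tests `x_i`. -/
def DD.Mentions {n m : ℕ} (P : DD n m) (u : Fin m) (i : Fin n) : Prop :=
  ∃ v a b, Relation.ReflTransGen P.Edge u v ∧ P.lab v = .dec i a b

/-- Decomposable logic decision diagram: acyclic (nodes are numbered so that children come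
first), read-once (a tested variable is not tested again below), and the two children of a gate
mention disjoint sets of variables. -/
def DD.Valid {n m : ℕ} (P : DD n m) : Prop :=
  (∀ u v, P.Edge u v → v < u) ∧
  (∀ u i a b, P.lab u = .dec i a b → ¬ P.Mentions a i ∧ ¬ P.Mentions b i) ∧
  (∀ u h a b i, P.lab u = .gate h a b → ¬ (P.Mentions a i ∧ P.Mentions b i))

/-- The diagram computes `f`: the node functions `g u`, fixed by the local rules, give `f` at
the root. -/
def DD.Computes {n m : ℕ} (P : DD n m) (f : (Fin n → Bool) → Bool) : Prop :=
  ∃ g : Fin m → (Fin n → Bool) → Bool, g P.root = f ∧ ∀ u x, g u x =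
    match P.lab u with
    | .sink c => c
    | .dec i a b => if x i = true then g b x else g a x
    | .gate h a b => h (g a x) (g b x)

end Pool.Agent.MP_ed3b92_lc
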