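import Mathlib
import Pool.Agent.MP_ed3b92_lc.Defs

namespace Pool.Agent.MP_ed3b92_lc

/-- `v` is the first (`s = false`) or the second (`s = true`) child of `u`. -/
def DD.In {n m : ℕ} (P : DD n m) (u : Fin m) (s : Bool) (v : Fin m) : Prop :=
  match P.lab u with
  | .sink _ => False
  | .dec _ a b => v = if s = true then b else a
  | .gate _ a b => v = if s = true then b else a

/-- The number of shared nodes: nodes with two different incoming edges. -/
noncomputable def DD.shared {n m : ℕ} (P : DD n m) : ℕ :=
  Set.ncard {v | ∃ u s u' s', (u, s) ≠ (u', s') ∧ P.In u s v ∧ P.In u' s' v}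

end Pool.Agent.MP_ed3b92_lc
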