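import Mathlib
import Pool.Agent.MP_ed3b92_lc.TSDefs

namespace Pool.Agent.MP_ed3b92_lc

/-- The diagram computes `f` (as in `DD.Computes`) and no gate has a dead child: if a child
mentions a variable, the gate depends on it for some value taken by the other child. -/
def DD.ComputesN {n m : ℕ} (P : DD n m) (f : (Fin n → Bool) → Bool) : Prop :=
  ∃ g : Fin m → (Fin n → Bool) → Bool, g P.root = f ∧ (∀ u x, g u x =
    match P.lab u with
    | .sink c => c
    | .dec i a b => if x i = true then g b x else g a x
    | .gate h a b => h (g a x) (g b x)) ∧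
    ∀ u h a b i, P.lab u = .gate h a b →
      (P.Mentions a i → ∃ x, h false (g b x) ≠ h true (g b x)) ∧
      (P.Mentions b i → ∃ x, h (g a x) false ≠ h (g a x) true)

/-- `par` names one incoming edge (caller, side) of every node other than the root. -/
def DD.CallTree {n m : ℕ} (P : DD n m) (par : Fin m → Fin m × Bool) : Prop :=
  ∀ v, v ≠ P.root → P.In (par v).1 (par v).2 v

/-- `v` lies in the subtree of `w` in the call tree. -/
def DD.Under {n m : ℕ} (P : DD n m) (par : Fin m → Fin m × Bool) : Fin m → Fin m → Prop :=
  Relation.ReflTransGen fun a b => b ≠ P.root ∧ (par b).1 = a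

/-- The number of nodes outside the subtree of `w` that are children of nodes of the subtree. -/
noncomputable def DD.hits {n m : ℕ} (P : DD n m) (par : Fin m → Fin m × Bool) (w : Fin m) : ℕ :=
  Set.ncard {v | ¬ P.Under par w v ∧ ∃ u, P.Under par w u ∧ P.Edge u v}

end Pool.Agent.MP_ed3b92_lc
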