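import Mathlib
import Pool.Agent.MP_ed3b92_lc.TSDefs
import Pool.Agent.MP_ed3b92_lc.Dia

open Finset Function

namespace Pool.Agent.MP_ed3b92_lc

variable {n m : ℕ} (P : DD n m)

lemma In_dec {u a b : Fin m} {i : Fin n} (h : P.lab u = .dec i a b) (s : Bool) (v : Fin m) :
    P.In u s v ↔ v = if s = true then b else a := by simp only [DD.In, h]

lemma In_gate {u a b : Fin m} {op : Bool → Bool → Bool} (h : P.lab u = .gate op a b) (s : Bool)
    (v : Fin m) : P.In u s v ↔ v = if s = true then b else a := by simp only [DD.In, h]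

lemma In_edge {u v : Fin m} {s : Bool} (h : P.In u s v) : P.Edge u v := by
  cases hl : P.lab u with
  | sink c => simp [DD.In, hl] at h
  | dec i a b => rw [edge_dec P hl, (In_dec P hl s v).1 h]; cases s <;> simp
  | gate op a b => rw [edge_gate P hl, (In_gate P hl s v).1 h]; cases s <;> simp

lemma In_unique {u v v' : Fin m} {s : Bool} (h : P.In u s v) (h' : P.In u s v') : v = v' := by
  cases hl : P.lab u with
  | sink c => simp [DD.In, hl] at h
  | dec i a b => rw [(In_dec P hl s v).1 h, (In_dec P hl s v').1 h']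
  | gate op a b => rw [(In_gate P hl s v).1 h, (In_gate P hl s v').1 h']

/-- the side taken by the walk of `x` at the node `p` -/
noncomputable def sd (κ : ℕ) (x : Fin n → Bool) (p : Fin m) : Bool :=
  match P.lab p with
  | .sink _ => false
  | .dec i _ _ => x i
  | .gate _ _ b => decide (κ ≤ #(Vs P b))

/-- the walk of `x` -/
def Pass (κ : ℕ) (x : Fin n → Bool) : Fin m → Fin m → Prop :=
  Relation.ReflTransGen fun p q => 2 * κ < #(Vs P p) ∧ P.In p (sd P κ x p) q

lemma stop_unique {κ : ℕ} {x : Fin n → Bool} {u v v' : Fin m} (h : Pass P κ x u v)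
    (h' : Pass P κ x u v') (a : #(Vs P v) ≤ 2 * κ) (a' : #(Vs P v') ≤ 2 * κ) : v = v' := by
  rcases Relation.ReflTransGen.total_of_right_unique
    (fun _ _ _ c c' => In_unique P c.2 c'.2) h h' with c | c
  · rcases c.cases_head with c | ⟨_, c, -⟩
    · exact c
    · exact absurd c.1 (by omega)
  · rcases c.cases_head with c | ⟨_, c, -⟩
    · exact c.symm
    · exact absurd c.1 (by omega)

lemma sd_dep (hP : P.Valid) (κ : ℕ) (p : Fin m) : ∃ E : Finset (Fin n), E ⊆ Vs P p ∧
    (∀ q, P.Edge p q → Disjoint E (Vs P q)) ∧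
    ∀ x z, sd P κ x p = sd P κ z p ↔ ∀ i ∈ E, x i = z i := by
  cases hl : P.lab p with
  | sink c => exact ⟨∅, by simp, by simp, by simp [sd, hl]⟩
  | gate op a b => exact ⟨∅, by simp, by simp, by simp [sd, hl]⟩
  | dec i a b =>
    refine ⟨{i}, singleton_subset_iff.2 ((mem_Vs P).2 ⟨p, a, b, .refl, hl⟩), fun q e => ?_,
      by simp [sd, hl]⟩
    rw [disjoint_singleton_left, mem_Vs]
    rcases (edge_dec P hl q).1 e with rfl | rfl
    · exact (hP.2.1 p i _ _ hl).1
    · exact (hP.2.1 p i _ _ hl).2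

/-- the private path above a node -/
lemma priv (hP : P.Valid) (κ : ℕ) (v : Fin m) : (∃ z, Pass P κ z P.root v) →
    ∃ (u : Fin m) (D : Finset (Fin n)) (c : Fin n → Bool),
      (u = P.root ∨ ∃ p s p' s', (p, s) ≠ (p', s') ∧ P.In p s u ∧ P.In p' s' u) ∧
      Disjoint D (Vs P v) ∧ (∀ z, Pass P κ z P.root v → ∀ i ∈ D, z i = c i) ∧
      ∀ x, (∀ i ∈ D, x i = c i) → Pass P κ x u v := by
  induction v using WellFoundedGT.induction with
  | ind v ih =>
    rintro ⟨z0, hz0⟩
    by_cases h : v = P.root ∨ ∃ p s p' s', (p, s) ≠ (p', s') ∧ P.In p s v ∧ P.In p' s' v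
    · exact ⟨v, ∅, z0, h, by simp, by simp, fun _ _ => .refl⟩
    simp only [not_or, not_exists, not_and] at h
    obtain ⟨p, a1, a2, a3⟩ := hz0.cases_tail.resolve_left h.1
    have e := In_edge P a3
    obtain ⟨u, D, c, b1, b2, b3, b4⟩ := ih p (hP.1 p v e) ⟨z0, a1⟩
    obtain ⟨E, c1, c2, c3⟩ := sd_dep P hP κ p
    have hd : ∀ i ∈ D, i ∉ E := fun i hi hE => disjoint_left.1 b2 hi (c1 hE)
    refine ⟨u, D ∪ E, pw E z0 c, b1,
      disjoint_union_left.2 ⟨b2.mono_right (Vs_mono P e), c2 v e⟩, fun z hz i hi => ?_,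
      fun x hx => ?_⟩
    · obtain ⟨p', d1, -, d3⟩ := hz.cases_tail.resolve_left h.1
      have d4 : (p', sd P κ z p') = (p, sd P κ z0 p) := by
        by_contra hne
        exact h.2 _ _ _ _ hne d3 a3
      obtain ⟨rfl, d5⟩ := Prod.mk.inj d4
      rcases mem_union.1 hi with hi | hi
      · rw [pw_not (hd i hi), b3 z d1 i hi]
      · rw [pw_mem hi, (c3 z z0).1 d5 i hi]
    · refine (b4 x fun i hi => ?_).tail ⟨a2, ?_⟩
      · rw [hx i (mem_union_left _ hi), pw_not (hd i hi)]
      · rwa [(c3 x z0).2 fun i hi => by rw [hx i (mem_union_right _ hi), pw_mem hi]]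

/-- what the choice `T` of free variables achieves below `u` at the point `z` -/
def Nice2 (g : Fin m → (Fin n → Bool) → Bool) (pick : Finset (Fin n) → Finset (Fin n)) (κ : ℕ)
    (u : Fin m) (U : Finset (Fin n)) (T : (Fin n → Bool) → Finset (Fin n))
    (z : Fin n → Bool) : Prop :=
  T z ⊆ U ∧ #(T z) = κ ∧ (∀ y, T (pw (T z) y z) = T z) ∧
    ((∀ y, g u (pw (T z) y z) = g u z) ∨ ∃ (v : Fin m) (h : Bool → Bool), Pass P κ z u v ∧
      Vs P v ⊆ Vs P u ∧ κ ≤ #(Vs P v) ∧ #(Vs P v) ≤ 2 * κ ∧ T z = pick (Vs P v) ∧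
      ∀ x, (∀ i, i ∉ Vs P v → x i = z i) → g u x = h (g v x))

lemma exists_T2 (hP : P.Valid) {g : Fin m → (Fin n → Bool) → Bool} (hg : Rules P g)
    (pick : Finset (Fin n) → Finset (Fin n)) (κ : ℕ)
    (hpick : ∀ U : Finset (Fin n), κ ≤ #U → pick U ⊆ U ∧ #(pick U) = κ) (u : Fin m) :
    ∀ U : Finset (Fin n), Vs P u ⊆ U → (κ ≤ #(Vs P u) ∨ 2 * κ ≤ #U) →
      ∃ T, ∀ z, Nice2 P g pick κ u U T z := by
  induction u using WellFoundedLT.induction with
  | ind u ih =>
    intro U hU hc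
    rcases lt_or_ge (#(Vs P u)) κ with h1 | h1
    · obtain ⟨a1, a2⟩ := hpick (U \ Vs P u) (by rw [card_sdiff_of_subset hU]; omega)
      exact ⟨fun _ => pick (U \ Vs P u), fun z => ⟨a1.trans sdiff_subset, a2, fun _ => rfl,
        Or.inl fun y => dep P hP hg _ _ u fun i hi => pw_not fun hp => (mem_sdiff.1 (a1 hp)).2 hi⟩⟩
    rcases le_or_gt (#(Vs P u)) (2 * κ) with h2 | h2
    · obtain ⟨a1, a2⟩ := hpick _ h1
      exact ⟨fun _ => pick (Vs P u), fun z => ⟨a1.trans hU, a2, fun _ => rfl,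
        Or.inr ⟨u, id, .refl, Subset.rfl, h1, h2, rfl, fun _ _ => rfl⟩⟩⟩
    cases hl : P.lab u with
    | sink c =>
      obtain ⟨i, hi⟩ := card_pos.1 (show 0 < #(Vs P u) by omega)
      rcases Vs_cases P hi with ⟨a, b, h⟩ | ⟨v, e, -⟩
      · rw [hl] at h; cases h
      · simp [DD.Edge, hl] at e
    | dec i a b =>
      have hi : i ∈ Vs P u := (mem_Vs P).2 ⟨u, a, b, .refl, hl⟩
      have key : ∀ v, P.Edge u v → i ∉ Vs P v ∧
          ∃ T, ∀ z, Nice2 P g pick κ v ((Vs P u).erase i) T z := by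
        intro v e
        have h3 : i ∉ Vs P v := by
          rw [mem_Vs]
          rcases (edge_dec P hl v).1 e with rfl | rfl
          · exact (hP.2.1 u i _ _ hl).1
          · exact (hP.2.1 u i _ _ hl).2
        refine ⟨h3, ih v (hP.1 u v e) _ (subset_erase.2 ⟨Vs_mono P e, h3⟩) (Or.inr ?_)⟩
        rw [card_erase_of_mem hi]; omega
      choose h3 T hT using key
      have hch : ∀ z : Fin n → Bool, P.Edge u (if z i = true then b else a) := fun z => by
        rw [edge_dec P hl]; split_ifs <;> simp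
      have hgu : ∀ x z : Fin n → Bool, x i = z i → g u x = g (if z i = true then b else a) x := by
        intro x z e
        rw [hg.2.1 u i a b hl, e]; split_ifs <;> rfl
      refine ⟨fun z => T _ (hch z) z, fun z => ?_⟩
      obtain ⟨b1, b2, b3, b4⟩ := hT _ (hch z) z
      have hz : ∀ y, pw (T _ (hch z) z) y z i = z i :=
        fun y => pw_not fun hp => by simpa using b1 hp
      refine ⟨b1.trans ((erase_subset _ _).trans hU), b2, fun y => ?_, ?_⟩
      · have : ∀ (x : Fin n → Bool) (e : x i = z i), T _ (hch x) = T _ (hch z) := by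
          intro x e
          congr 1
          rw [e]
        exact (congrFun (this _ (hz y)) _).trans (b3 y)
      · rcases b4 with b4 | ⟨v, h, c0, c1, c2, c3, c4, c5⟩
        · exact Or.inl fun y => by rw [hgu _ z (hz y), hgu z z rfl, b4]
        · refine Or.inr ⟨v, h, c0.head ⟨h2, (In_dec P hl _ _).2 (by simp only [sd, hl])⟩,
            c1.trans (Vs_mono P (hch z)), c2, c3, c4, fun x hx => ?_⟩
          rw [hgu x z (hx i fun hv => h3 _ (hch z) (c1 hv)), c5 x hx]
    | gate op a b =>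
      have key : ∀ (op' : Bool → Bool → Bool) (a' b' : Fin m), (∀ z, P.In u (sd P κ z u) b') →
          (∀ x, g u x = op' (g a' x) (g b' x)) → (∀ i ∈ Vs P a', i ∉ Vs P b') →
          κ ≤ #(Vs P b') → ∃ T, ∀ z, Nice2 P g pick κ u U T z := by
        intro op' a' b' e0 hu hd hk
        have e := In_edge P (e0 fun _ => true)
        obtain ⟨T, hT⟩ := ih b' (hP.1 u b' e) _ Subset.rfl (Or.inl hk)
        refine ⟨T, fun z => ?_⟩
        obtain ⟨b1, b2, b3, b4⟩ := hT z
        refine ⟨b1.trans ((Vs_mono P e).trans hU), b2, b3, ?_⟩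
        rcases b4 with b4 | ⟨v, h, c0, c1, c2, c3, c4, c5⟩
        · refine Or.inl fun y => ?_
          rw [hu, hu, b4, dep P hP hg _ z a' fun i hi => pw_not fun hp => hd i hi (b1 hp)]
        · refine Or.inr ⟨v, fun t => op' (g a' z) (h t), c0.head ⟨h2, e0 z⟩,
            c1.trans (Vs_mono P e), c2, c3, c4, fun x hx => ?_⟩
          rw [hu, c5 x hx, dep P hP hg x z a' fun i hi => hx i fun hv => hd i hi (c1 hv)]
      have hsub : Vs P u ⊆ Vs P a ∪ Vs P b := by
        intro i hi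
        rcases Vs_cases P hi with ⟨a', b', h⟩ | ⟨v, e, hv⟩
        · rw [hl] at h; cases h
        · rcases (edge_gate P hl v).1 e with rfl | rfl
          · exact mem_union_left _ hv
          · exact mem_union_right _ hv
      have hc := (card_le_card hsub).trans (card_union_le _ _)
      have hd := fun i => hP.2.2 u op a b i hl
      simp only [← mem_Vs] at hd
      rcases le_or_gt κ (#(Vs P b)) with h3 | h3
      · exact key op a b (fun z => (In_gate P hl _ _).2 (by simp [sd, hl, h3]))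
          (hg.2.2 u op a b hl) (fun i h h' => hd i ⟨h, h'⟩) h3
      · exact key (fun s t => op t s) b a
          (fun z => (In_gate P hl _ _).2 (by simp [sd, hl, h3.not_ge]))
          (hg.2.2 u op a b hl) (fun i h h' => hd i ⟨h', h⟩) (by omega)

lemma card_cube (D : Finset (Fin n)) (c : Fin n → Bool) :
    #{x : Fin n → Bool | ∀ i ∈ D, x i = c i} = 2 ^ (n - #D) := by
  have : ({x : Fin n → Bool | ∀ i ∈ D, x i = c i} : Finset _)
      = Fintype.piFinset fun i => if i ∈ D then {c i} else univ := by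
    ext x
    simp only [mem_filter, mem_univ, true_and, Fintype.mem_piFinset]
    refine forall_congr' fun i => ?_
    split_ifs with h <;> simp [h]
  rw [this, Fintype.card_piFinset]
  simp only [apply_ite card, card_singleton, card_univ, Fintype.card_bool]
  rw [prod_ite, prod_const_one, one_mul, prod_const]
  congr 1
  rw [filter_not, filter_mem_eq_inter, univ_inter, card_univ_sdiff, Fintype.card_fin]

/-- cubes above the stopping nodes -/
lemma cubes (hP : P.Valid) (κ : ℕ) : ∃ (D : Fin m → Finset (Fin n)) (c : Fin m → Fin n → Bool)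
    (M : Fin m → ℕ), ∑ v, M v ≤ (P.shared + 1) * 2 ^ n ∧ ∀ v z, Pass P κ z P.root v →
      #(Vs P v) ≤ 2 * κ → Disjoint (D v) (Vs P v) ∧ 2 ^ (n - #(D v)) ≤ M v ∧
        ∀ i ∈ D v, z i = c v i := by
  classical
  choose! u D c h1 h2 h3 h4 using priv P hP κ
  obtain ⟨St, hSt⟩ : ∃ St : Finset (Fin m), ∀ v, v ∈ St ↔
      (∃ z, Pass P κ z P.root v) ∧ #(Vs P v) ≤ 2 * κ :=
    ⟨univ.filter fun v => (∃ z, Pass P κ z P.root v) ∧ #(Vs P v) ≤ 2 * κ, by simp⟩
  refine ⟨D, c, fun v => if v ∈ St then #{x : Fin n → Bool | ∀ i ∈ D v, x i = c v i} else 0, ?_,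
    fun v z a1 a2 => ⟨h2 v ⟨z, a1⟩, ?_, h3 v ⟨z, a1⟩ z a1⟩⟩
  · rw [← sum_filter, filter_mem_eq_inter, univ_inter, ← card_sigma]
    refine le_trans (card_le_card_of_injOn (t := insert P.root (univ.filter fun v =>
        ∃ u s u' s', (u, s) ≠ (u', s') ∧ P.In u s v ∧ P.In u' s' v) ×ˢ univ)
      (fun p => (u p.1, p.2)) (fun p hp => ?_) fun p hp q hq e => ?_) ?_
    · have := h1 p.1 ((hSt _).1 (mem_sigma.1 (mem_coe.1 hp)).1).1
      simpa using this
    · obtain ⟨a1, a2⟩ := mem_sigma.1 (mem_coe.1 hp)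
      obtain ⟨b1, b2⟩ := mem_sigma.1 (mem_coe.1 hq)
      obtain ⟨e1, e2⟩ := Prod.mk.inj e
      have a3 := h4 _ ((hSt _).1 a1).1 _ (mem_filter.1 a2).2
      have b3 := h4 _ ((hSt _).1 b1).1 _ (mem_filter.1 b2).2
      rw [e1, e2] at a3
      exact Sigma.ext (stop_unique P a3 b3 ((hSt _).1 a1).2 ((hSt _).1 b1).2) (heq_of_eq e2)
    · rw [card_product]
      refine Nat.mul_le_mul ((card_insert_le _ _).trans (le_of_eq ?_)) (by simp)
      rw [DD.shared, ← Set.ncard_coe_finset]
      congr 2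
      ext v
      simp
  · simp only [if_pos ((hSt v).2 ⟨⟨z, a1⟩, a2⟩), card_cube, le_refl]

end Pool.Agent.MP_ed3b92_lc
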