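import Mathlib
import Pool.Agent.MP_ed3b92_lc.CaDefs
import Pool.Agent.MP_ed3b92_lc.TSDia

open Finset Function

namespace Pool.Agent.MP_ed3b92_lc

variable {n m : ℕ} {P : DD n m} {g : Fin m → (Fin n → Bool) → Bool}

/-- `x` takes the side `s` if `p` is a decision node -/
def Cu (P : DD n m) (p : Fin m) (s : Bool) (x : Fin n → Bool) : Prop :=
  ∀ i a b, P.lab p = .dec i a b → x i = s

/-- no gate has a dead child -/
def Nondeg (P : DD n m) (g : Fin m → (Fin n → Bool) → Bool) : Prop :=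
  ∀ u h a b i, P.lab u = .gate h a b →
    (P.Mentions a i → ∃ x, h false (g b x) ≠ h true (g b x)) ∧
    (P.Mentions b i → ∃ x, h (g a x) false ≠ h (g a x) true)

/-- every child mentions fewer variables -/
def Str (P : DD n m) (a : Fin m) : Prop := ∀ c, P.Edge a c → #(Vs P c) < #(Vs P a)

/-- paths that follow `x` at the decision nodes -/
def Fol (P : DD n m) (x : Fin n → Bool) : Fin m → Fin m → Prop :=
  Relation.ReflTransGen fun p q => ∃ s, P.In p s q ∧ Cu P p s x

lemma dec_mem (hP : P.Valid) {p q a b : Fin m} {i : Fin n} (hl : P.lab p = .dec i a b)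
    (e : P.Edge p q) : i ∈ Vs P p \ Vs P q := by
  refine mem_sdiff.2 ⟨(mem_Vs P).2 ⟨p, a, b, .refl, hl⟩, ?_⟩
  rw [mem_Vs]
  rcases (edge_dec P hl q).1 e with rfl | rfl
  · exact (hP.2.1 p i _ _ hl).1
  · exact (hP.2.1 p i _ _ hl).2

lemma inj_of_ne {h : Bool → Bool} {s t : Bool} (e : h s ≠ h t) : Injective h := by
  revert h s t; decide

lemma edge_fun (hP : P.Valid) (hg : Rules P g) {p q : Fin m} {s : Bool} (e : P.In p s q) :
    ∃ H : (Fin n → Bool) → Bool → Bool, (∀ x, Cu P p s x → ∀ x',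
      (∀ i ∈ Vs P p \ Vs P q, x' i = x i) → g p x' = H x (g q x')) ∧
      (Nondeg P g → (Vs P q).Nonempty → ∃ x, Cu P p s x ∧ Injective (H x)) := by
  have e' := In_edge P e
  cases hl : P.lab p with
  | sink c => simp [DD.In, hl] at e
  | dec i a b =>
    have hi := dec_mem hP hl e'
    refine ⟨fun _ => id, fun x hx x' h => ?_,
      fun _ _ => ⟨fun _ => s, fun _ _ _ _ => rfl, injective_id⟩⟩
    rw [hg.2.1 p i a b hl, h i hi, hx i a b hl, (In_dec P hl s q).1 e]
    cases s <;> rfl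
  | gate op a b =>
    have key : ∀ (op' : Bool → Bool → Bool) (r : Fin m), P.Edge p r →
        (∀ x, g p x = op' (g r x) (g q x)) → (∀ i ∈ Vs P r, i ∉ Vs P q) →
        (Nondeg P g → ∀ i, P.Mentions q i → ∃ x, op' (g r x) false ≠ op' (g r x) true) →
        ∃ H : (Fin n → Bool) → Bool → Bool, (∀ x, Cu P p s x → ∀ x',
          (∀ i ∈ Vs P p \ Vs P q, x' i = x i) → g p x' = H x (g q x')) ∧
          (Nondeg P g → (Vs P q).Nonempty → ∃ x, Cu P p s x ∧ Injective (H x)) := by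
      intro op' r er hu hd hN
      have hs : Vs P r ⊆ Vs P p \ Vs P q := fun i hi => mem_sdiff.2 ⟨Vs_mono P er hi, hd i hi⟩
      refine ⟨fun x => op' (g r x), fun x _ x' h => ?_, fun h ⟨i, hi⟩ => ?_⟩
      · rw [hu, dep P hP hg x' x r fun i hi => h i (hs hi)]
      · obtain ⟨x, a1⟩ := hN h i ((mem_Vs P).1 hi)
        exact ⟨x, fun _ _ _ e => (by rw [hl] at e; cases e), inj_of_ne a1⟩
    have hd := fun i => hP.2.2 p op a b i hl
    simp only [← mem_Vs] at hd
    have hq := (In_gate P hl s q).1 e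
    cases s
    · obtain rfl : q = a := hq
      exact key (fun s t => op t s) b ((edge_gate P hl b).2 (Or.inr rfl)) (hg.2.2 p op q b hl)
        (fun i h h' => hd i ⟨h', h⟩) fun h i => (h p op q b i hl).1
    · obtain rfl : q = b := hq
      exact key op a ((edge_gate P hl a).2 (Or.inl rfl)) (hg.2.2 p op a q hl)
        (fun i h h' => hd i ⟨h, h'⟩) fun h i => (h p op a q i hl).2

/-- below `u`, the function at the root is `h` of the function at `u` -/
def Res (P : DD n m) (g : Fin m → (Fin n → Bool) → Bool) (h : Bool → Bool) (x : Fin n → Bool)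
    (u : Fin m) : Prop := ∀ x', (∀ i, i ∉ Vs P u → x' i = x i) → g P.root x' = h (g u x')

lemma Res.step {h h' : Bool → Bool} {x : Fin n → Bool} {p q : Fin m} (e : P.Edge p q)
    (a : Res P g h x p) (b : ∀ x', (∀ i ∈ Vs P p \ Vs P q, x' i = x i) → g p x' = h' (g q x')) :
    Res P g (h ∘ h') x q := fun x' hx => by
  rw [a x' fun i hi => hx i fun h => hi (Vs_mono P e h), b x' fun i hi => hx i (mem_sdiff.1 hi).2]
  rfl

lemma fol_res (hP : P.Valid) (hg : Rules P g) {x : Fin n → Bool} {q : Fin m}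
    (h : Fol P x P.root q) : ∃ h, Res P g h x q := by
  induction h with
  | refl => exact ⟨id, fun _ _ => rfl⟩
  | tail _ e ih =>
    obtain ⟨h, hh⟩ := ih
    obtain ⟨s, e1, e2⟩ := e
    obtain ⟨H, h1, -⟩ := edge_fun hP hg e1
    exact ⟨_, hh.step (In_edge P e1) (h1 x e2)⟩

lemma pass_fol {κ : ℕ} {x : Fin n → Bool} {p q : Fin m} (h : Pass P κ x p q) : Fol P x p q := by
  induction h with
  | refl => exact .refl
  | tail _ e ih => exact ih.tail ⟨_, e.2, fun i a b hl => by simp only [sd, hl]⟩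

lemma str_dec (hP : P.Valid) {p a b : Fin m} {i : Fin n} (hl : P.lab p = .dec i a b) : Str P p :=
  fun _ e => card_lt_card ((ssubset_iff_of_subset (Vs_mono P e)).2
    ⟨i, mem_sdiff.1 (dec_mem hP hl e)⟩)

lemma to_str (hP : P.Valid) (x : Fin n → Bool) (v : Fin m) :
    ∃ v', Fol P x v v' ∧ Vs P v' = Vs P v ∧ Str P v' := by
  induction v using WellFoundedLT.induction with
  | ind v ih =>
    by_cases h : Str P v
    · exact ⟨v, .refl, rfl, h⟩
    have h' := h
    simp only [Str, not_forall, not_lt] at h'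
    obtain ⟨c, e, hc⟩ := h'
    obtain ⟨v', a1, a2, a3⟩ := ih c (hP.1 _ _ e)
    refine ⟨v', a1.head ?_, a2.trans (eq_of_subset_of_card_le (Vs_mono P e) hc), a3⟩
    cases hl : P.lab v with
    | sink c => simp [DD.Edge, hl] at e
    | dec i a b => exact absurd (str_dec hP hl) h
    | gate op a b =>
      have : ∀ s, Cu P v s x := fun _ _ _ _ e => by rw [hl] at e; cases e
      rcases (edge_gate P hl c).1 e with rfl | rfl
      · exact ⟨false, (In_gate P hl _ _).2 rfl, this _⟩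
      · exact ⟨true, (In_gate P hl _ _).2 rfl, this _⟩

variable {par : Fin m → Fin m × Bool}

lemma un_root (hP : P.Valid) (ht : P.CallTree par) (v : Fin m) : P.Under par P.root v := by
  induction v using WellFoundedGT.induction with
  | ind v ih =>
    by_cases h : v = P.root
    · exact h ▸ .refl
    · exact (ih _ (hP.1 _ _ (In_edge P (ht v h)))).tail ⟨h, rfl⟩

lemma un_Vs (ht : P.CallTree par) {w v : Fin m} (h : P.Under par w v) : Vs P v ⊆ Vs P w := by
  induction h with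
  | refl => exact Subset.rfl
  | tail _ e ih => exact (Vs_mono P (e.2 ▸ In_edge P (ht _ e.1))).trans ih

lemma un_le (hP : P.Valid) (ht : P.CallTree par) {w v : Fin m} (h : P.Under par w v) : v ≤ w := by
  induction h with
  | refl => exact le_rfl
  | tail _ e ih => exact (hP.1 _ _ (e.2 ▸ In_edge P (ht _ e.1))).le.trans ih

lemma two_dec (hP : P.Valid) {a q q' : Fin m} {s s' : Bool} {i : Fin n} (c1 : P.In a s q)
    (c2 : P.In a s' q') (h : q ≠ q') (d1 : i ∈ Vs P q) (d2 : i ∈ Vs P q') :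
    s ≠ s' ∧ ∃ j b c, P.lab a = .dec j b c := by
  have c5 : s ≠ s' := fun e => h (In_unique P c1 (e ▸ c2))
  refine ⟨c5, ?_⟩
  cases hl : P.lab a with
  | sink c => simp [DD.In, hl] at c1
  | dec j b c => exact ⟨j, b, c, rfl⟩
  | gate op b c =>
    rw [(In_gate P hl _ _).1 c1, mem_Vs] at d1
    rw [(In_gate P hl _ _).1 c2, mem_Vs] at d2
    refine (hP.2.2 _ op b c i hl ?_).elim
    cases s <;> cases s'
    · exact absurd rfl c5
    · exact ⟨d1, d2⟩
    · exact ⟨d2, d1⟩
    · exact absurd rfl c5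

lemma un_split (hP : P.Valid) (ht : P.CallTree par) (q u : Fin m) : ¬ P.Under par u q →
    ∃ w, w ≠ P.root ∧ P.Under par w u ∧ ¬ P.Under par w q ∧ P.Under par (par w).1 q := by
  induction u using WellFoundedGT.induction with
  | ind u ih =>
    intro h
    have h1 : u ≠ P.root := fun e => h (e ▸ un_root hP ht q)
    by_cases h2 : P.Under par (par u).1 q
    · exact ⟨u, h1, .refl, h, h2⟩
    · obtain ⟨w, a1, a2, a3⟩ := ih _ (hP.1 _ _ (In_edge P (ht u h1))) h2
      exact ⟨w, a1, a2.tail ⟨h1, rfl⟩, a3⟩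

/-- `x` follows the tree edge into `q`, and this edge is alive at `x` -/
def Ok (P : DD n m) (g : Fin m → (Fin n → Bool) → Bool) (par : Fin m → Fin m × Bool)
    (x : Fin n → Bool) (q : Fin m) : Prop :=
  Cu P (par q).1 (par q).2 x ∧ ∃ h : Bool → Bool, Injective h ∧
    ∀ x', (∀ i ∈ Vs P (par q).1 \ Vs P q, x' i = x i) → g (par q).1 x' = h (g q x')

/-- all the tree edges above `u` are alive at `x` -/
def TL (P : DD n m) (g : Fin m → (Fin n → Bool) → Bool) (par : Fin m → Fin m × Bool)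
    (x : Fin n → Bool) (u : Fin m) : Prop := ∀ q, q ≠ P.root → P.Under par q u → Ok P g par x q

lemma Ok.congr (hP : P.Valid) (ht : P.CallTree par) {x y : Fin n → Bool} {q : Fin m}
    (hq : q ≠ P.root) (h : Ok P g par x q) (e : ∀ i ∈ Vs P (par q).1 \ Vs P q, y i = x i) :
    Ok P g par y q := by
  obtain ⟨a1, h, a2, a3⟩ := h
  exact ⟨fun i a b hl => (e i (dec_mem hP hl (In_edge P (ht q hq)))).trans (a1 i a b hl),
    h, a2, fun x' hx => a3 x' fun i hi => (hx i hi).trans (e i hi)⟩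

lemma TL.root (x : Fin n → Bool) : TL P g par x P.root := fun _ hq h =>
  (h.cases_tail.elim (fun e => hq e.symm) fun ⟨_, _, e⟩ => e.1 rfl).elim

lemma TL.up {x : Fin n → Bool} {a u : Fin m} (h : TL P g par x u) (e : P.Under par a u) :
    TL P g par x a := fun q hq h' => h q hq (h'.trans e)

lemma TL.res (hP : P.Valid) (ht : P.CallTree par) {x : Fin n → Bool} (u : Fin m) :
    TL P g par x u → ∃ h, Injective h ∧ Res P g h x u := by
  induction u using WellFoundedGT.induction with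
  | ind u ih =>
    intro h
    by_cases h1 : u = P.root
    · exact ⟨id, injective_id, fun _ _ => by rw [h1]; rfl⟩
    have e := In_edge P (ht u h1)
    obtain ⟨h2, a1, a2⟩ := ih _ (hP.1 _ _ e) (h.up (.single ⟨h1, rfl⟩))
    obtain ⟨-, h3, a3, a4⟩ := h u h1 .refl
    exact ⟨_, a1.comp a3, a2.step e a4⟩

lemma TL.down (hP : P.Valid) (hg : Rules P g) (hN : Nondeg P g) (ht : P.CallTree par)
    {x : Fin n → Bool} {a q : Fin m} (h : TL P g par x a) (e : P.Under par a q) :
    (Vs P q).Nonempty → ∃ x', (∀ i, i ∉ Vs P a \ Vs P q → x' i = x i) ∧ TL P g par x' q := by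
  induction e with
  | refl => exact fun _ => ⟨x, fun _ _ => rfl, h⟩
  | @tail p q e1 e2 ih =>
    intro hq
    obtain ⟨e2, rfl⟩ := e2
    have e3 := Vs_mono P (In_edge P (ht q e2))
    obtain ⟨x', a1, a2⟩ := ih (hq.mono e3)
    obtain ⟨H, b1, b2⟩ := edge_fun hP hg (ht q e2)
    obtain ⟨y, b3, b4⟩ := b2 hN hq
    refine ⟨pw (Vs P (par q).1 \ Vs P q) y x', fun i hi => ?_, fun r hr e4 => ?_⟩
    · rw [pw_not fun h => hi (sdiff_subset_sdiff (un_Vs ht e1) Subset.rfl h),
        a1 i fun h => hi (sdiff_subset_sdiff Subset.rfl e3 h)]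
    · rcases e4.cases_tail with rfl | ⟨p, e5, -, rfl⟩
      · exact Ok.congr hP ht hr ⟨b3, H y, b4, b1 y b3⟩ fun i hi => pw_mem hi
      · exact (a2 r hr e5).congr hP ht hr fun i hi =>
          pw_not fun h => (mem_sdiff.1 hi).2 (un_Vs ht e5 (mem_sdiff.1 h).1)

lemma un_strict (ht : P.CallTree par) {w v : Fin m} (hw : Str P w) (h : P.Under par w v)
    (hc : #(Vs P w) = #(Vs P v)) : w = v := by
  rcases h.cases_head with h | ⟨c, ⟨e1, rfl⟩, e2⟩
  · exact h
  have a1 := card_le_card (un_Vs ht e2)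
  have a2 := hw c (In_edge P (ht c e1))
  omega

lemma un_total (hP : P.Valid) (ht : P.CallTree par) {x : Fin n → Bool} {w v : Fin m} {i : Fin n}
    (hw : ∀ q, q ≠ P.root → P.Under par q w → Cu P (par q).1 (par q).2 x)
    (hv : ∀ q, q ≠ P.root → P.Under par q v → Cu P (par q).1 (par q).2 x)
    (iw : i ∈ Vs P w) (iv : i ∈ Vs P v) : P.Under par w v ∨ P.Under par v w := by
  by_contra h
  rw [not_or] at h
  obtain ⟨q, a1, a2, a3, a4⟩ := un_split hP ht v w h.1
  rcases a4.cases_head with e | ⟨q', ⟨b1, b2⟩, b3⟩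
  · exact h.2 (e ▸ a2.head ⟨a1, rfl⟩)
  have c4 := hv q' b1 b3
  rw [b2] at c4
  obtain ⟨c5, j, a, b, hl⟩ := two_dec hP (ht q a1) (b2 ▸ ht q' b1) (fun e => a3 (e ▸ b3))
    (un_Vs ht a2 iw) (un_Vs ht b3 iv)
  exact c5 ((hw q a1 a2 j a b hl).symm.trans (c4 j a b hl))

/-- cubes above the nodes -/
lemma cubes2 (hP : P.Valid) (ht : P.CallTree par) :
    ∃ (D : Fin m → Finset (Fin n)) (c : Fin m → Fin n → Bool) (M : Fin m → ℕ),
      ∑ v, M v ≤ (n + 1) * n * 2 ^ n ∧ ∀ v x, TL P g par x v → (Vs P v).Nonempty ∧ Str P v →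
        Disjoint (D v) (Vs P v) ∧ 2 ^ (n - #(D v)) ≤ M v ∧ ∀ i ∈ D v, x i = c v i := by
  classical
  obtain ⟨C, hC⟩ : ∃ C : Fin m → Finset (Fin n → Bool), ∀ v x, x ∈ C v ↔
      ((Vs P v).Nonempty ∧ Str P v) ∧ ∀ q, q ≠ P.root → P.Under par q v → Cu P (par q).1 (par q).2 x :=
    ⟨fun v => univ.filter fun x => ((Vs P v).Nonempty ∧ Str P v) ∧
      ∀ q, q ≠ P.root → P.Under par q v → Cu P (par q).1 (par q).2 x, by simp⟩
  have hc : ∀ v, ∃ c, (∃ x, x ∈ C v) → c ∈ C v := fun v => by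
    by_cases h : ∃ x, x ∈ C v
    · exact h.imp fun _ h _ => h
    · exact ⟨fun _ => true, fun h' => absurd h' h⟩
  choose c hc using hc
  obtain ⟨D, hD⟩ : ∃ D : Fin m → Finset (Fin n), ∀ v i, i ∈ D v ↔
      ∃ q, q ≠ P.root ∧ P.Under par q v ∧ ∃ a b, P.lab (par q).1 = .dec i a b :=
    ⟨fun v => univ.filter fun i =>
      ∃ q, q ≠ P.root ∧ P.Under par q v ∧ ∃ a b, P.lab (par q).1 = .dec i a b, by simp⟩
  refine ⟨D, c, fun v => #(C v), ?_, fun v x hx hv => ?_⟩
  · rw [← card_sigma]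
    have hi : ∀ p : (_ : Fin m) × (Fin n → Bool), ∃ i : Option (Fin n), p ∈ univ.sigma C →
        ∃ j ∈ Vs P p.1, i = some j := fun p => by
      by_cases h : p ∈ univ.sigma C
      · obtain ⟨j, hj⟩ := ((hC _ _).1 (mem_sigma.1 h).2).1.1
        exact ⟨some j, fun _ => ⟨j, hj, rfl⟩⟩
      · exact ⟨none, fun h' => absurd h' h⟩
    choose i hi using hi
    refine le_trans (card_le_card_of_injOn
      (t := (range (n + 1) ×ˢ (univ.image some : Finset (Option (Fin n)))) ×ˢ univ)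
      (fun p => ((#(Vs P p.1), i p), p.2)) (fun p hp => ?_) fun p hp q hq e => ?_) ?_
    · obtain ⟨j, -, hj⟩ := hi p hp
      have := card_le_univ (Vs P p.1)
      simp only [Fintype.card_fin] at this
      simp [hj, this]
    · obtain ⟨j, a1, a2⟩ := hi p hp
      obtain ⟨j', b1, b2⟩ := hi q hq
      simp only [Prod.mk.injEq] at e
      obtain ⟨⟨e1, e2⟩, e3⟩ := e
      obtain rfl : j = j' := Option.some.inj (a2.symm.trans (e2.trans b2))
      obtain ⟨a4, a3⟩ := (hC _ _).1 (mem_sigma.1 (mem_coe.1 hp)).2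
      obtain ⟨b4, b3⟩ := (hC _ _).1 (mem_sigma.1 (mem_coe.1 hq)).2
      rw [e3] at a3
      refine Sigma.ext ?_ (heq_of_eq e3)
      rcases un_total hP ht a3 b3 a1 b1 with h | h
      · exact un_strict ht a4.2 h e1
      · exact (un_strict ht b4.2 h e1.symm).symm
    · simp [card_image_of_injective _ (Option.some_injective _)]
  · have h1 : x ∈ C v := (hC _ _).2 ⟨hv, fun q a b => (hx q a b).1⟩
    have h2 := ((hC _ _).1 (hc v ⟨x, h1⟩)).2
    refine ⟨disjoint_left.2 fun i hi hi' => ?_, ?_, fun i hi => ?_⟩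
    · obtain ⟨q, a1, a2, a, b, a3⟩ := (hD _ _).1 hi
      exact (mem_sdiff.1 (dec_mem hP a3 (In_edge P (ht q a1)))).2 (un_Vs ht a2 hi')
    · rw [← card_cube (D v) (c v)]
      refine card_le_card fun y hy => (hC _ _).2 ⟨hv, fun q a1 a2 i a b a3 => ?_⟩
      rw [(mem_filter.1 hy).2 i ((hD _ _).2 ⟨q, a1, a2, a, b, a3⟩), h2 q a1 a2 i a b a3]
    · obtain ⟨q, a1, a2, a, b, a3⟩ := (hD _ _).1 hi
      rw [(hx q a1 a2).1 i a b a3, h2 q a1 a2 i a b a3]

/-- targets of the edges that leave the subtrees of the children -/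
lemma targets (hP : P.Valid) (ht : P.CallTree par) {S : ℕ} (hS : ∀ w, P.hits par w ≤ S) :
    ∃ O : Fin m → Finset (Fin m), (∀ a, #(O a) ≤ 2 * S + 2) ∧ ∀ p q, P.Edge p q →
      ∃ a, P.Under par a p ∧ P.Under par a q ∧ q ∈ O a ∧
        ((Vs P q).Nonempty → (Vs P a \ Vs P q).Nonempty → Str P a) := by
  classical
  obtain ⟨X, hX, hc⟩ : ∃ X : Fin m → Finset (Fin m), (∀ w v, v ∈ X w ↔ v = w ∨
      (¬ P.Under par w v ∧ ∃ u, P.Under par w u ∧ P.Edge u v)) ∧ ∀ w, #(X w) ≤ S + 1 := by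
    refine ⟨fun w => insert w (univ.filter fun v =>
      ¬ P.Under par w v ∧ ∃ u, P.Under par w u ∧ P.Edge u v), by simp, fun w => ?_⟩
    refine (card_insert_le _ _).trans (Nat.add_le_add_right (le_trans (le_of_eq ?_) (hS w)) _)
    rw [DD.hits, ← Set.ncard_coe_finset]
    congr 1
    ext v
    simp
  have h : ∀ a, ∃ O : Finset (Fin m), #O ≤ 2 * S + 2 ∧ ∀ w, P.Edge a w → X w ⊆ O := fun a => by
    have key : ∀ b c, (∀ w, P.Edge a w ↔ w = b ∨ w = c) →
        ∃ O : Finset (Fin m), #O ≤ 2 * S + 2 ∧ ∀ w, P.Edge a w → X w ⊆ O := fun b c h => by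
      refine ⟨X b ∪ X c, (card_union_le _ _).trans (by have := hc b; have := hc c; omega),
        fun w e => ?_⟩
      rcases (h w).1 e with rfl | rfl
      · exact subset_union_left
      · exact subset_union_right
    cases hl : P.lab a with
    | sink c => exact ⟨∅, by simp, fun w e => by simp [DD.Edge, hl] at e⟩
    | dec i b c => exact key b c (edge_dec P hl)
    | gate op b c => exact key b c (edge_gate P hl)
  choose O h1 h2 using h
  refine ⟨O, h1, fun p q e => ?_⟩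
  by_cases h : P.Under par p q
  · refine ⟨p, .refl, h, h2 p q e ((hX _ _).2 (Or.inl rfl)), fun ⟨i, hi⟩ ⟨j, hj⟩ c e' => ?_⟩
    refine card_lt_card ((ssubset_iff_of_subset (Vs_mono P e')).2 ?_)
    by_cases hc : c = q
    · exact ⟨j, hc ▸ mem_sdiff.1 hj⟩
    cases hl : P.lab p with
    | sink c => simp [DD.Edge, hl] at e
    | dec k a b => exact ⟨k, mem_sdiff.1 (dec_mem hP hl e')⟩
    | gate op a b =>
      refine ⟨i, Vs_mono P e hi, fun hi' => hP.2.2 p op a b i hl ?_⟩
      rw [mem_Vs] at hi hi'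
      rcases (edge_gate P hl _).1 e with rfl | rfl <;> rcases (edge_gate P hl _).1 e' with rfl | rfl
      · exact absurd rfl hc
      · exact ⟨hi, hi'⟩
      · exact ⟨hi', hi⟩
      · exact absurd rfl hc
  · obtain ⟨w, a1, a2, a3, a4⟩ := un_split hP ht q p h
    refine ⟨_, a2.head ⟨a1, rfl⟩, a4,
      h2 _ w (In_edge P (ht w a1)) ((hX _ _).2 (Or.inr ⟨a3, p, a2, e⟩)), fun ⟨i, hi⟩ _ => ?_⟩
    rcases a4.cases_head with e' | ⟨q', ⟨b1, b2⟩, b3⟩
    · exact absurd ((hP.1 _ _ e).trans_le ((un_le hP ht a2).trans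
        (hP.1 _ _ (In_edge P (ht w a1))).le)) (by rw [e']; exact lt_irrefl _)
    obtain ⟨-, j, a, b, hl⟩ := two_dec hP (ht w a1) (b2 ▸ ht q' b1) (fun e => a3 (e ▸ b3))
      (un_Vs ht a2 (Vs_mono P e hi)) (un_Vs ht b3 hi)
    exact str_dec hP hl

end Pool.Agent.MP_ed3b92_lc
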