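import Mathlib
import Pool.Agent.MP_ed3b92_lc.LinRand

open Finset Function Matrix

namespace Pool.Agent.MP_ed3b92_lc

variable {n w β κ : ℕ}

/-- coordinate frame -/
def fr (e : Fin κ → Fin n) : Matrix (Fin n) (Fin κ) (ZMod 2) :=
  Matrix.of fun v i => if v = e i then 1 else 0

lemma fr_inv {e : Fin κ → Fin n} (he : Injective e) : (fr e)ᵀ * fr e = 1 := by
  ext i j
  simp [fr, mul_apply, one_apply, he.eq_iff, eq_comm]

lemma fr_off {e : Fin κ → Fin n} {T : Finset (Fin n)} (he : ∀ i, e i ∈ T) (y : Fin κ → ZMod 2)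
    {v : Fin n} (hv : v ∉ T) : (fr e *ᵥ y) v = 0 := by
  unfold mulVec dotProduct
  refine sum_eq_zero fun i _ => ?_
  have : v ≠ e i := fun h => hv (h ▸ he i)
  simp [fr, this]

variable {blk : Fin n → Fin w} {pos : Fin n → Fin β}
  (hinj : ∀ u v, blk u = blk v → pos u = pos v → u = v) (hβ : 2 ≤ β)
include hinj hβ

lemma term_far' {δ : Fin n → ZMod 2} (h : β ≤ wt δ) (l : ℕ) :
    #{R : Fin (20 * l) → Om w β | mat blk pos R *ᵥ δ = 0} * 2 ^ (8 * l)
      ≤ Fintype.card (Fin (20 * l) → Om w β) := by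
  have h1 : ({R : Fin (20 * l) → Om w β | mat blk pos R *ᵥ δ = 0} : Finset _)
      = Fintype.piFinset fun _ => ({ω : Om w β | gv blk pos ω ⬝ᵥ δ = 0} : Finset _) := by
    ext R
    simp only [mem_filter, mem_univ, true_and, Fintype.mem_piFinset]
    exact funext_iff
  have h2 := Nat.pow_le_pow_left (point_far hinj hβ h) (20 * l)
  have h3 : 2 ^ (8 * l) * 3 ^ (20 * l) ≤ 4 ^ (20 * l) := by
    rw [pow_mul, pow_mul, pow_mul, ← mul_pow]
    exact Nat.pow_le_pow_left (by norm_num) l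
  rw [h1, Fintype.card_piFinset, prod_const, card_univ, Fintype.card_fun, Fintype.card_fin]
  rw [mul_pow, mul_pow] at h2
  refine Nat.le_of_mul_le_mul_right (le_trans ?_ h2) (by positivity)
  rw [mul_assoc]
  exact Nat.mul_le_mul_left _ h3

lemma frame_bad (l s : ℕ) (hl : n + 1 ≤ 2 ^ l) (h1 : κ ≤ s) (h2 : s ≤ n)
    (hκ : κ = 8 * (β * (43 * l + 16 + 1))) (f : Fin (4 * s) → ℤ) (hf : Injective f) :
    #{A : Fin (4 * s) → Fin (20 * l) → Om w β | ∃ e : Fin κ → Fin n, Injective e ∧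
      s ≤ #{j | BadS (mat blk pos (A j)) (fr e) (fr e) ∨ ∃ j', f j' < f j ∧
        ¬ Ind (mat blk pos (A j) * fr e) (mat blk pos (A j') * fr e)}} * 4
      ≤ Fintype.card (Fin (4 * s) → Fin (20 * l) → Om w β) := by
  have : Nonempty (Fin (20 * l) → Om w β) := ⟨fun _ => (fun _ => ⟨0, by omega⟩, 0)⟩
  have key : ∀ e : Fin κ → Fin n, Injective e →
      #{A : Fin (4 * s) → Fin (20 * l) → Om w β |
        s ≤ #{j | BadS (mat blk pos (A j)) (fr e) (fr e) ∨ ∃ j', f j' < f j ∧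
          ¬ Ind (mat blk pos (A j) * fr e) (mat blk pos (A j') * fr e)}} * (2 ^ (l + 6)) ^ s
        ≤ 2 ^ (4 * s) * Fintype.card (Fin (4 * s) → Fin (20 * l) → Om w β) := by
    intro e he
    have hc := cond_start (fr_inv he) (by omega : 1 ≤ β) _ hκ
    have := many_bad f hf (fun j (A : Fin (4 * s) → Fin (20 * l) → Om w β) =>
      BadS (mat blk pos (A j)) (fr e) (fr e) ∨
        ∃ j', f j' < f j ∧ ¬ Ind (mat blk pos (A j) * fr e) (mat blk pos (A j') * fr e))
      (2 ^ (l + 6)) s ?_ ?_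
    · rwa [Fintype.card_fin] at this
    · intro j m hjm A ω
      have h1 : j ≠ m := fun e => by rw [e] at hjm; exact lt_irrefl _ hjm
      rw [update_of_ne h1]
      refine or_congr_right (exists_congr fun j' => and_congr_right fun h => ?_)
      have h2 : j' ≠ m := fun e => by rw [e] at h; exact lt_asymm h hjm
      rw [update_of_ne h2]
    · intro j A
      refine Nat.le_of_mul_le_mul_right ?_ (show 0 < 2 ^ (42 * l + 10) by positivity)
      rw [mul_assoc, ← pow_add, show l + 6 + (42 * l + 10) = 43 * l + 16 by omega]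
      refine le_trans (Nat.mul_le_mul_right _ (card_le_card fun R hR => ?_))
        ((term_fail hinj hβ (fr e) hc fun j => mat blk pos (A j)).trans ?_)
      · have := (mem_filter.1 hR).2
        rw [update_self] at this
        refine mem_filter.2 ⟨mem_univ _, this.imp_right ?_⟩
        rintro ⟨j', h, h'⟩
        have h1 : j' ≠ j := fun e => by rw [e] at h; exact lt_irrefl _ h
        rw [update_of_ne h1] at h'
        exact ⟨j', h'⟩
      · rw [mul_comm]
        refine Nat.mul_le_mul_left _ ?_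
        have a2 : l < 2 ^ l := Nat.lt_two_pow_self
        calc _ ≤ 2 ^ (l + 5) * (2 ^ (20 * l) * (2 ^ (20 * l) * 2 ^ (l + 5))) := by
              gcongr <;> rw [pow_add] <;> omega
          _ = _ := by ring
  have h4 := union_bound ({e | Injective e} : Finset (Fin κ → Fin n))
    (fun e (A : Fin (4 * s) → Fin (20 * l) → Om w β) =>
      s ≤ #{j | BadS (mat blk pos (A j)) (fr e) (fr e) ∨ ∃ j', f j' < f j ∧
        ¬ Ind (mat blk pos (A j) * fr e) (mat blk pos (A j') * fr e)})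
    (fun A => ∃ e : Fin κ → Fin n, Injective e ∧
      s ≤ #{j | BadS (mat blk pos (A j)) (fr e) (fr e) ∨ ∃ j', f j' < f j ∧
        ¬ Ind (mat blk pos (A j) * fr e) (mat blk pos (A j') * fr e)}) _ _
    (fun A ⟨e, a1, a2⟩ => ⟨e, by simp [a1], a2⟩) (fun e he => key e (mem_filter.1 he).2)
  refine Nat.le_of_mul_le_mul_left ?_ (show 0 < 2 ^ (l * s) * 2 ^ (4 * s) by positivity)
  rw [mul_left_comm]
  refine le_trans (Nat.mul_le_mul_left _ ?_) (h4.trans ?_)
  · rw [show (2 ^ (l * s) * 2 ^ (4 * s) * 4 : ℕ) = 2 ^ (l * s + 4 * s + 2) by ring, ← pow_mul]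
    refine Nat.pow_le_pow_right (by norm_num) ?_
    have : 1 ≤ s := le_trans (by rw [hκ]; nlinarith) h1
    nlinarith
  · rw [← mul_assoc]
    gcongr
    refine (card_le_univ _).trans ?_
    rw [Fintype.card_fun, Fintype.card_fin, Fintype.card_fin, pow_mul]
    exact (Nat.pow_le_pow_left (by omega) κ).trans (Nat.pow_le_pow_right (by positivity) h1)

lemma near_bad (l s : ℕ) (hl : n + 1 ≤ 2 ^ l) (h1 : 1 ≤ l) (h2 : 1 ≤ s) :
    #{A : Fin (4 * s) → Fin (20 * l) → Om w β | ∃ δ, (β ≤ wt δ ∧ wt δ < s + 1) ∧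
      s ≤ #{j | mat blk pos (A j) *ᵥ δ = 0}} * 4
      ≤ Fintype.card (Fin (4 * s) → Fin (20 * l) → Om w β) := by
  have : Nonempty (Fin (20 * l) → Om w β) := ⟨fun _ => (fun _ => ⟨0, by omega⟩, 0)⟩
  have h4 := union_bound ({δ | β ≤ wt δ ∧ wt δ < s + 1} : Finset (Fin n → ZMod 2))
    (fun δ (A : Fin (4 * s) → Fin (20 * l) → Om w β) => s ≤ #{j | mat blk pos (A j) *ᵥ δ = 0})
    (fun A => ∃ δ, (β ≤ wt δ ∧ wt δ < s + 1) ∧ s ≤ #{j | mat blk pos (A j) *ᵥ δ = 0}) _ _
    (fun A ⟨δ, a1, a2⟩ => ⟨δ, mem_filter.2 ⟨mem_univ _, a1⟩, a2⟩)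
    (fun δ hδ => many_bad (fun j => (j.val : ℤ)) (fun a b h => Fin.ext (by simpa using h))
      (fun j (A : Fin (4 * s) → Fin (20 * l) → Om w β) => mat blk pos (A j) *ᵥ δ = 0)
      (2 ^ (8 * l)) s
      (fun j m hjm A ω => by rw [update_of_ne (fun e => by rw [e] at hjm; exact lt_irrefl _ hjm)])
      (fun j A => by simpa only [update_self] using term_far' hinj hβ (mem_filter.1 hδ).2.1 l))
  refine Nat.le_of_mul_le_mul_left ?_ (show 0 < 2 ^ (l * s) * 2 ^ (4 * s) by positivity)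
  rw [mul_left_comm]
  refine le_trans (Nat.mul_le_mul_left _ ?_) (h4.trans ?_)
  · rw [show (2 ^ (l * s) * 2 ^ (4 * s) * 4 : ℕ) = 2 ^ (l * s + 4 * s + 2) by ring, ← pow_mul]
    refine Nat.pow_le_pow_right (by norm_num) ?_
    nlinarith
  · rw [Fintype.card_fin, ← mul_assoc]
    gcongr
    refine le_trans (card_le_card fun δ hδ => mem_filter.2 ⟨mem_univ _, (mem_filter.1 hδ).2.2⟩)
      ((ball s).trans ?_)
    rw [pow_mul]
    gcongr

lemma exists_B (l s : ℕ) (hl : n + 1 ≤ 2 ^ l) (h0 : 1 ≤ l) (h1 : κ ≤ s) (h2 : s ≤ n)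
    (hκ : κ = 8 * (β * (43 * l + 16 + 1))) :
    ∃ A : Fin (4 * s) → Fin (20 * l) → Om w β, ∀ e : Fin κ → Fin n, Injective e →
      ∀ δ, β ≤ wt δ → wt δ ≤ s → ∃ j, GoodL (fun j => mat blk pos (A j)) (fr e) (fr e) δ j := by
  have : Nonempty (Fin (4 * s) → Fin (20 * l) → Om w β) :=
    ⟨fun _ _ => (fun _ => ⟨0, by omega⟩, 0)⟩
  have hpos : 0 < Fintype.card (Fin (4 * s) → Fin (20 * l) → Om w β) := Fintype.card_pos
  have a1 := frame_bad hinj hβ l s hl h1 h2 hκ (fun j => (j.val : ℤ))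
    (fun a b h => Fin.ext (by simpa using h))
  have a2 := frame_bad hinj hβ l s hl h1 h2 hκ (fun j => -(j.val : ℤ))
    (fun a b h => Fin.ext (by simpa using h))
  have a3 := near_bad hinj hβ l s hl h0 (le_trans (by rw [hκ]; nlinarith) h1)
  have a4 := (by omega : ∀ a b c N : ℕ, 0 < N → a * 4 ≤ N → b * 4 ≤ N → c * 4 ≤ N →
    a + b + c < N) _ _ _ _ hpos a1 a2 a3
  rw [← card_univ] at a4
  obtain ⟨A, -, hA⟩ := exists_mem_notMem_of_card_lt_card (lt_of_le_of_lt
    ((card_union_le _ _).trans (Nat.add_le_add_right (card_union_le _ _) _)) a4)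
  simp only [mem_union, mem_filter, mem_univ, true_and, not_or, not_exists, not_and, not_le] at hA
  obtain ⟨⟨b1, b2⟩, b3⟩ := hA
  refine ⟨A, fun e he δ d1 d2 => ?_⟩
  have e1 := (by omega : ∀ a b c : ℕ, a < s → b < s → c < s → a + b + c < 4 * s) _ _ _
    (b1 e he) (b2 e he) (b3 δ ⟨d1, by omega⟩)
  obtain ⟨j, -, hj⟩ := exists_mem_notMem_of_card_lt_card (t := univ) (lt_of_le_of_lt
    ((card_union_le _ _).trans (Nat.add_le_add_right (card_union_le _ _) _))
      (e1.trans_eq (by simp)))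
  simp only [mem_union, mem_filter, mem_univ, true_and, not_or, not_exists, not_and, not_not,
    BadS] at hj
  obtain ⟨⟨⟨⟨f1, -⟩, f3⟩, -, f4⟩, f6⟩ := hj
  refine ⟨j, fun c hc => funext fun k => ?_, fun j' hne => ?_, f6, fun _ _ _ => rfl⟩
  · by_contra hk
    exact f1 c k (z2 hk) hc
  · have : j'.val ≠ j.val := fun e => hne (Fin.ext e)
    rcases lt_or_gt_of_ne this with h' | h'
    · exact f3 j' (by simpa using h')
    · exact f4 j' (by simpa using h')

end Pool.Agent.MP_ed3b92_lc
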