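import Mathlib
import Pool.Agent.MP_ed3b92_lc.LinMain
import Pool.Agent.MP_ed3b92_lc.TSRand
import Pool.Agent.MP_ed3b92_lc.TSDia

open Finset Function Matrix

namespace Pool.Agent.MP_ed3b92_lc

variable {n m : ℕ}

/-- elements of `ZMod 2` as bits -/
def db (x : Fin n → ZMod 2) : Fin n → Bool := fun i => decide (x i = 1)

lemma db_inj {x y : Fin n → ZMod 2} {i : Fin n} (h : db x i = db y i) : x i = y i := by
  unfold db at h
  generalize x i = s, y i = t at h
  revert s t; decide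

lemma db_off {κ : ℕ} {e : Fin κ → Fin n} {T : Finset (Fin n)} (he : ∀ i, e i ∈ T)
    (z : Fin n → ZMod 2) (y : Fin κ → ZMod 2) {v : Fin n} (hv : v ∉ T) :
    db (z + fr e *ᵥ y) v = db z v := by
  unfold db
  rw [Pi.add_apply, fr_off he y hv, add_zero]

lemma db_pw {κ : ℕ} {e : Fin κ → Fin n} {T : Finset (Fin n)} (he : ∀ i, e i ∈ T)
    (z : Fin n → ZMod 2) (y : Fin κ → ZMod 2) :
    db (z + fr e *ᵥ y) = pw T (db (z + fr e *ᵥ y)) (db z) := by
  funext v
  by_cases hv : v ∈ T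
  · rw [pw_mem hv]
  · rw [pw_not hv, db_off he z y hv]

lemma card_fib (Q Z : Finset (Fin n → ZMod 2)) (X : Finset (Fin n))
    (h : ∀ z ∈ Q, ∀ z' ∈ Q, (∀ i ∈ X, z i = z' i) → z - z' ∈ Z) : #Q ≤ #Z * 2 ^ #X := by
  rw [← card_powerset]
  refine card_le_mul_card_image_of_maps_to (f := fun z => {i ∈ X | z i = 1})
    (fun z _ => mem_powerset.2 (filter_subset _ _)) _ fun Y _ => ?_
  rcases eq_empty_or_nonempty
    (Q.filter fun z : Fin n → ZMod 2 => X.filter (fun i => z i = 1) = Y) with he | ⟨z', hz'⟩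
  · rw [he]; simp
  refine card_le_card_of_injOn (fun z => z - z') (fun z hz => ?_) fun x _ y _ e => by simpa using e
  obtain ⟨a1, a2⟩ := mem_filter.1 (mem_coe.1 hz)
  obtain ⟨b1, b2⟩ := mem_filter.1 hz'
  refine mem_coe.2 (h z a1 z' b1 fun i hi => db_inj ?_)
  have := congrArg (fun s => i ∈ s) (a2.trans b2.symm)
  simpa [hi, db] using this

theorem ts_lower (P : DD n m) {b κ N β s : ℕ} (A : Fin N → Matrix (Fin b) (Fin n) (ZMod 2))
    (J : Finset (Fin N)) (hn : 2 * κ ≤ n) (hβ : β ≤ s) (hs : s ≤ n) (hb : 4 * N ≤ 2 ^ b)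
    (hJ : ∀ j, j ∈ J ↔ ∀ c, c ᵥ* A j = 0 → c = 0)
    (hgood : ∀ e : Fin κ → Fin n, Injective e → ∀ δ, β ≤ wt δ → wt δ ≤ s →
      ∃ j, GoodL A (fr e) (fr e) δ j)
    (hP : P.Valid) {g : Fin m → (Fin n → Bool) → Bool} (hg : Rules P g)
    (hf : ∀ x, g P.root (db x) = true ↔ hardL A J x) :
    2 ^ n * 2 ^ s ≤ 8 * #{δ : Fin n → ZMod 2 | wt δ < β} *
      (m * 2 ^ (2 * κ + s) + (P.shared + 1) * 2 ^ n) := by
  have hpick : ∀ U : Finset (Fin n), ∃ W, κ ≤ #U → W ⊆ U ∧ #W = κ := fun U => by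
    by_cases h : κ ≤ #U
    · obtain ⟨W, hW⟩ := exists_subset_card_eq h
      exact ⟨W, fun _ => hW⟩
    · exact ⟨∅, fun h' => absurd h' h⟩
  choose pick hpick using hpick
  have he : ∀ U : Finset (Fin n), ∃ e : Fin κ → Fin n, #U = κ → Injective e ∧ ∀ i, e i ∈ U :=
    fun U => by
      by_cases h : #U = κ
      · exact ⟨U.orderEmbOfFin h, fun _ => ⟨(U.orderEmbOfFin h).injective, by simp⟩⟩
      · exact ⟨fun i => ⟨i, by omega⟩, fun h' => absurd h' h⟩
  choose e he using he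
  obtain ⟨T, hT⟩ := exists_T2 P hP hg pick κ hpick P.root univ (subset_univ _)
    (Or.inr (by simpa using hn))
  obtain ⟨D, c, M, hM, hD⟩ := cubes P hP κ
  have hA := atypL (A := A) (J := J) (fun j hj => (hJ j).1 hj) hb (fun z => fr (e (T (db z))))
    fun y z => by rw [db_pw (he _ (hT _).2.1).2, (hT _).2.2.1]
  have hown : ∀ {L : Matrix (Fin n) (Fin κ) (ZMod 2)} {δ j}, GoodL A L L δ j → j ∈ J :=
    fun h => (hJ _).2 fun c hc => h.1 c (by rw [← vecMul_vecMul, hc, zero_vecMul])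
  obtain ⟨Q, hQ⟩ : ∃ Q : Fin m × (Bool → Bool) → Finset (Fin n → ZMod 2), ∀ p z, z ∈ Q p ↔
      TypL A J (fr (e (pick (Vs P p.1)))) z ∧ Pass P κ (db z) P.root p.1 ∧ κ ≤ #(Vs P p.1) ∧
      #(Vs P p.1) ≤ 2 * κ ∧
      ∀ x, (∀ i, i ∉ Vs P p.1 → x i = db z i) → g P.root x = p.2 (g p.1 x) := by
    classical
    exact ⟨fun p => univ.filter fun z => TypL A J (fr (e (pick (Vs P p.1)))) z ∧
      Pass P κ (db z) P.root p.1 ∧ κ ≤ #(Vs P p.1) ∧ #(Vs P p.1) ≤ 2 * κ ∧
      ∀ x, (∀ i, i ∉ Vs P p.1 → x i = db z i) → g P.root x = p.2 (g p.1 x), by simp⟩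
  generalize hZ : ({δ | wt δ < β} : Finset (Fin n → ZMod 2)) = Z
  have hC : ∀ p, #(Q p) * 2 ^ s ≤ #Z * (2 ^ (2 * κ + s) + M p.1) := by
    rintro ⟨v, h⟩
    rcases eq_empty_or_nonempty (Q (v, h)) with h0 | ⟨z0, hz0⟩
    · rw [h0]; simp
    obtain ⟨-, b1, b2, b3, -⟩ := (hQ _ _).1 hz0
    dsimp only at b1 b2 b3 ⊢
    obtain ⟨b4, b5, -⟩ := hD v _ b1 b3
    obtain ⟨t1, t2⟩ := hpick _ b2
    obtain ⟨t3, t4⟩ := he _ t2
    obtain ⟨W, w1, w2⟩ := exists_subset_card_eq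
      (min_le_right s #(D v ∪ Vs P v)ᶜ)
    have w3 : ∀ i ∈ W, i ∉ D v ∧ i ∉ Vs P v := fun i hi => by simpa using w1 hi
    have a1 := card_fib (Q (v, h)) Z (D v ∪ W)ᶜ fun z hz z' hz' hzz => by
      obtain ⟨-, c1, -, -, c3⟩ := (hQ _ _).1 hz
      obtain ⟨d0, d1, -, -, d3⟩ := (hQ _ _).1 hz'
      dsimp only at c1 c3 d0 d1 d3
      have a2 : ∀ i, i ∉ W → z i = z' i := fun i hi => by
        by_cases hi' : i ∈ D v
        · exact db_inj (((hD v _ c1 b3).2.2 i hi').trans ((hD v _ d1 b3).2.2 i hi').symm)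
        · exact hzz i (by simp [hi, hi'])
      have a3 : wt (z - z') ≤ s := by
        refine le_trans (card_le_card fun i hi => ?_) (w2.le.trans (min_le_left _ _))
        by_contra hi'
        exact (mem_filter.1 hi).2 (by rw [Pi.sub_apply, a2 i hi', sub_self])
      rw [← hZ]
      refine mem_filter.2 ⟨mem_univ _, not_le.1 fun a4 => ?_⟩
      obtain ⟨j, hj⟩ := hgood _ t3 _ a4 a3
      refine decodeL (hown hj) hj d0 fun y hy => ?_
      rw [← hf] at hy ⊢
      rw [← hy, c3 _ fun i hi => db_off t4 z y fun hp => hi (t1 hp),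
        d3 _ fun i hi => db_off t4 z' y fun hp => hi (t1 hp)]
      refine congrArg h (dep P hP hg _ _ v fun i hi => ?_)
      unfold db
      rw [Pi.add_apply, Pi.add_apply, a2 i fun hw => (w3 i hw).2 hi]
    refine (Nat.mul_le_mul_right _ a1).trans ?_
    rw [mul_assoc, ← pow_add]
    refine Nat.mul_le_mul_left _ ?_
    have a2 : #(D v ∪ W) = #(D v) + #W :=
      card_union_of_disjoint (disjoint_right.2 fun i hi => (w3 i hi).1)
    have a3 : #(D v ∪ Vs P v) = #(D v) + #(Vs P v) := card_union_of_disjoint b4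
    have a4 := card_le_univ (D v ∪ Vs P v)
    have a5 := card_le_univ (D v ∪ W)
    rw [card_compl, a3] at w2
    rw [card_compl, a2]
    simp only [Fintype.card_fin] at a4 a5 w2 ⊢
    rcases le_total s (n - (#(D v) + #(Vs P v))) with a6 | a6
    · exact le_trans (Nat.pow_le_pow_right (by norm_num) (by omega)) (b5.trans le_add_self)
    · exact le_trans (Nat.pow_le_pow_right (by norm_num) (by omega)) le_self_add
  have hE : #(univ : Finset (Fin n → ZMod 2))
      ≤ #{z | ¬ TypL A J (fr (e (T (db z)))) z} + ∑ p, #(Q p) := by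
    refine le_trans (card_le_card fun z _ => ?_) ((card_union_le _ _).trans
      (Nat.add_le_add_left card_biUnion_le _))
    by_cases c1 : TypL A J (fr (e (T (db z)))) z
    · obtain ⟨t3, t4⟩ := he _ (hT (db z)).2.1
      rcases (hT (db z)).2.2.2 with c2 | ⟨v, h, c2, -, c3, c4, c5, c6⟩
      · obtain ⟨Y, -, hY⟩ := exists_subset_card_eq (s := (univ : Finset (Fin n))) (n := β)
          (by simpa using hβ.trans hs)
        have hw : wt (fun i => if i ∈ Y then 1 else 0) = β := by simpa [wt] using hY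
        obtain ⟨j, hj⟩ := hgood _ t3 _ hw.ge (hw.le.trans hβ)
        refine (decodeL0 (hown hj) hj.1 c1 fun y y' hy => ?_).elim
        rw [← hf, db_pw t4, c2] at hy ⊢
        exact hy
      · exact mem_union_right _ (mem_biUnion.2 ⟨(v, h), mem_univ _,
          (hQ _ _).2 ⟨c5 ▸ c1, c2, c3, c4, c6⟩⟩)
    · exact mem_union_left _ (mem_filter.2 ⟨mem_univ _, c1⟩)
  simp only [card_univ, Fintype.card_fun, ZMod.card, Fintype.card_fin] at hE
  have hS : (∑ p, #(Q p)) * 2 ^ s ≤ #Z * (4 * (m * 2 ^ (2 * κ + s) + ∑ v, M v)) := by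
    rw [sum_mul]
    refine (sum_le_sum fun p _ => hC p).trans (le_of_eq ?_)
    rw [← mul_sum, Fintype.sum_prod_type, sum_comm]
    simp [sum_add_distrib]
  calc 2 ^ n * 2 ^ s ≤ (2 * ∑ p, #(Q p)) * 2 ^ s := Nat.mul_le_mul_right _ (by omega)
    _ ≤ 2 * (#Z * (4 * (m * 2 ^ (2 * κ + s) + (P.shared + 1) * 2 ^ n))) := by
        rw [mul_assoc]
        exact Nat.mul_le_mul_left _ (hS.trans (by gcongr))
    _ = _ := by ring

theorem ts_main (n k s : ℕ) (hk : 10 ^ 10 * (Nat.log 2 n + 1) ≤ k) (hks : k ≤ s) (hs : s ≤ n) :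
    ∃ F : Fm n, F.size * k ^ 2 ≤ 10 ^ 10 * s * n ^ 2 * (Nat.log 2 n + 1) ^ 3 ∧
      ∀ (m : ℕ) (P : DD n m), P.Valid → P.Computes F.eval →
        2 ^ (n - k) ≤ m ∨ 2 ^ (s - k) ≤ P.shared := by
  have hn : n + 1 ≤ 2 ^ (Nat.log 2 n + 1) := Nat.lt_pow_succ_log_self (by norm_num) n
  generalize hl : Nat.log 2 n + 1 = l at hn hk
  have hl1 : 1 ≤ l := by omega
  obtain ⟨β, hβ⟩ : ∃ β, β = (k - 4) / (17 * (43 * l + 17)) := ⟨_, rfl⟩
  have hβ2 : 2 ≤ β := by
    rw [hβ, Nat.le_div_iff_mul_le (by omega)]; omega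
  have h1 : β * (17 * (43 * l + 17)) ≤ k - 4 := hβ ▸ Nat.div_mul_le_self _ _
  have h2 : k - 4 < (β + 1) * (17 * (43 * l + 17)) := by
    rw [← Nat.div_lt_iff_lt_mul (by omega), ← hβ]; omega
  obtain ⟨κ, hκ⟩ : ∃ κ, κ = 8 * (β * (43 * l + 16 + 1)) := ⟨_, rfl⟩
  have h3 : 2 * κ + 4 + l * β ≤ k := by
    have : β * (17 * (43 * l + 17)) = 2 * κ + l * β + β * (42 * l + 17) := by rw [hκ]; ring
    omega
  have h4 : k ≤ 2000 * (l * β) := by
    have : k < 4 + (β + 1) * (17 * (43 * l + 17)) := by omega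
    nlinarith
  have h5 : β ≤ k := by nlinarith
  obtain ⟨d, hd1, hd2⟩ := exists_width n β (by omega) (by omega)
  obtain ⟨blk, pos, hinj⟩ : ∃ (blk : Fin n → Fin (2 ^ d)) (pos : Fin n → Fin β),
      ∀ u v, blk u = blk v → pos u = pos v → u = v :=
    ⟨fun v => ⟨v.val / β, (Nat.div_lt_iff_lt_mul (by omega)).2 (lt_of_lt_of_le v.2 hd1)⟩,
    fun v => ⟨v.val % β, Nat.mod_lt _ (by omega)⟩,
    fun u v a1 a2 => Fin.ext (by
      rw [← Nat.div_add_mod u.val β, ← Nat.div_add_mod v.val β,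
        show u.val / β = v.val / β from congrArg Fin.val a1,
        show u.val % β = v.val % β from congrArg Fin.val a2])⟩
  obtain ⟨A, hA⟩ := exists_B hinj hβ2 l s hn hl1 (by omega) hs hκ
  obtain ⟨F, hF1, hF2⟩ := rep_L d (fun j => mat blk pos (A j)) (fun j i => le_trans
    (card_le_card fun v hv => gv_supp blk pos (A j i) v (mem_filter.1 hv).2)
    (card_supp blk pos hinj _)) (univ.filter fun j => ∀ c, c ᵥ* mat blk pos (A j) = 0 → c = 0)
  refine ⟨F, ?_, fun m P r1 ⟨g, r2, r3⟩ => ?_⟩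
  · have e1 : 2 ^ d * k ≤ 4000 * (l * n) := by
      calc 2 ^ d * k ≤ 2 ^ d * (2000 * (l * β)) := by gcongr
        _ = 2000 * l * (2 ^ d * β) := by ring
        _ ≤ 2000 * l * (2 * n) := by gcongr
        _ = _ := by ring
    have e2 : 4 ^ d * k ^ 2 ≤ (4000 * (l * n)) ^ 2 := by
      rw [show (4 : ℕ) = 2 ^ 2 by norm_num, ← pow_mul, mul_comm 2 d, pow_mul, ← mul_pow]
      gcongr
    have e3 : 1 ≤ l ^ 3 := Nat.one_le_pow _ _ hl1
    have e4 : k ≤ n := by omega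
    calc F.size * k ^ 2 ≤ (4 * s * (20 * l * 4 ^ d + 1) + s) * k ^ 2 := by
          gcongr; omega
      _ = 80 * s * l * (4 ^ d * k ^ 2) + 5 * s * k ^ 2 * 1 := by ring
      _ ≤ 80 * s * l * (4000 * (l * n)) ^ 2 + 5 * s * n ^ 2 * l ^ 3 := by gcongr
      _ = 1280000005 * s * n ^ 2 * l ^ 3 := by ring
      _ ≤ _ := by gcongr; norm_num
  · have hg : Rules P g := ⟨fun u c h x => by rw [r3, h], fun u i a b h x => by rw [r3, h],
      fun u op a b h x => by rw [r3, h]⟩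
    have h := ts_lower P (fun j => mat blk pos (A j))
      (univ.filter fun j => ∀ c, c ᵥ* mat blk pos (A j) = 0 → c = 0) (by omega) (h5.trans hks) hs
      (by
        have : 2 ^ (l + 4) ≤ 2 ^ (20 * l) := Nat.pow_le_pow_right (by norm_num) (by omega)
        rw [pow_add] at this
        omega) (fun j => by simp) hA r1 hg
      (fun x => by rw [r2, hF2]; exact iff_of_eq (congrArg _ (bits_dec x)))
    have hZ : #{δ : Fin n → ZMod 2 | wt δ < β} ≤ 2 ^ (l * β) := by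
      rw [pow_mul]
      exact le_trans (card_le_card fun δ hδ => mem_filter.2
        ⟨mem_univ _, (mem_filter.1 hδ).2.trans (Nat.lt_succ_self _)⟩)
        ((ball β).trans (by gcongr))
    by_contra hc
    simp only [not_or, not_le] at hc
    refine absurd h (not_le.2 ?_)
    calc _ ≤ 8 * 2 ^ (l * β) * (m * 2 ^ (2 * κ + s) + (P.shared + 1) * 2 ^ n) := by gcongr
      _ < 8 * 2 ^ (l * β) * (2 ^ (n - k) * 2 ^ (2 * κ + s) + 2 ^ (s - k) * 2 ^ (n + 2 * κ)) := by
          refine Nat.mul_lt_mul_of_pos_left (Nat.add_lt_add_of_lt_of_le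
            (Nat.mul_lt_mul_of_pos_right hc.1 (by positivity)) (Nat.mul_le_mul hc.2
              (Nat.pow_le_pow_right (by norm_num) (by omega)))) (by positivity)
      _ = 2 ^ (4 + l * β + (n - k + (2 * κ + s))) := by
          rw [← pow_add, ← pow_add, show s - k + (n + 2 * κ) = n - k + (2 * κ + s) by omega]
          ring
      _ ≤ _ := by
          rw [← pow_add]
          exact Nat.pow_le_pow_right (by norm_num) (by omega)

end Pool.Agent.MP_ed3b92_lc
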