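import Mathlib
import Pool.Agent.MP_ed3b92_lc.TSMain
import Pool.Agent.MP_ed3b92_lc.CaDia

open Finset Function Matrix

namespace Pool.Agent.MP_ed3b92_lc

variable {n m : ℕ}

lemma decodeN {b κ N : ℕ} {A : Fin N → Matrix (Fin b) (Fin n) (ZMod 2)} {J : Finset (Fin N)}
    {L : Matrix (Fin n) (Fin κ) (ZMod 2)} {z z' δ : Fin n → ZMod 2} {j : Fin N} (hb : 1 ≤ b)
    (hJ : j ∈ J) (hg : GoodL A L L δ j) (ht : TypL A J L z')
    (h : ∀ y, hardL A J (z + L *ᵥ y) ↔ ¬ hardL A J (z' + L *ᵥ y)) : False := by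
  obtain ⟨g0, g1, -⟩ := hg
  have h1 : ∀ j', j' ∈ J → j' ≠ j → Dn (A j') L z = ∅ := fun j' hj' e => by
    rw [← card_eq_zero, ← Dn_inter (g1 j' e) z' z, mul_eq_zero, card_eq_zero]
    refine Or.inr (eq_empty_of_forall_notMem fun y hy => ?_)
    obtain ⟨a1, a2⟩ := mem_inter.1 hy
    exact (h y).1 ⟨j', hj', mem_Dn.1 a2⟩ ⟨j, hJ, mem_Dn.1 a1⟩
  have h2 : #(univ : Finset (Fin κ → ZMod 2)) ≤ #(Dn (A j) L z) + ∑ j' ∈ J, #(Dn (A j') L z') := by
    refine le_trans (card_le_card fun y _ => ?_)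
      ((card_union_le _ _).trans (Nat.add_le_add_left card_biUnion_le _))
    by_cases c : hardL A J (z' + L *ᵥ y)
    · obtain ⟨j', hj', a⟩ := c
      exact mem_union_right _ (mem_biUnion.2 ⟨j', hj', mem_Dn.2 a⟩)
    · obtain ⟨j', hj', a⟩ := (h y).2 c
      by_cases e : j' = j
      · exact mem_union_left _ (mem_Dn.2 (e ▸ a))
      · exact absurd (h1 j' hj' e ▸ mem_Dn.2 a) (notMem_empty y)
  have h3 := Dn_card g0 z
  have h4 : 2 ^ 1 * #(Dn (A j) L z) ≤ 2 ^ b * #(Dn (A j) L z) := by gcongr; norm_num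
  unfold TypL at ht
  simp only [card_univ, Fintype.card_fun, ZMod.card, Fintype.card_fin] at h2
  omega

lemma db_bits (x : Fin n → Bool) : db (bits x) = x := by
  funext i
  unfold db bits
  cases x i <;> simp

lemma wt_le {x y z : Fin n → ZMod 2} {W : Finset (Fin n)} (h : ∀ i, i ∉ W → y i = z i) :
    wt (x - z) ≤ wt (x - y) + #W := by
  refine le_trans (card_le_card fun i hi => ?_) (card_union_le _ _)
  by_cases hW : i ∈ W
  · exact mem_union_right _ hW
  · refine mem_union_left _ (mem_filter.2 ⟨mem_univ _, ?_⟩)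
    rw [Pi.sub_apply, h i hW]
    exact (mem_filter.1 hi).2

theorem ca_lower (P : DD n m) (par : Fin m → Fin m × Bool) {b κ N β s S : ℕ}
    (A : Fin N → Matrix (Fin b) (Fin n) (ZMod 2)) (J : Finset (Fin N)) (hκ : 0 < κ)
    (hn : 2 * κ ≤ n) (hβ0 : 0 < β) (hs0 : 0 < s) (hs : s + 2 * β ≤ n) (hb : 4 * N ≤ 2 ^ b) (hb1 : 1 ≤ b)
    (hJ : ∀ j, j ∈ J ↔ ∀ c, c ᵥ* A j = 0 → c = 0)
    (hgood : ∀ e : Fin κ → Fin n, Injective e → ∀ δ, β ≤ wt δ → wt δ ≤ s + 2 * β →
      ∃ j, GoodL A (fr e) (fr e) δ j)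
    (hP : P.Valid) {g : Fin m → (Fin n → Bool) → Bool} (hg : Rules P g) (hN : Nondeg P g)
    (ht : P.CallTree par) (hS : ∀ w, P.hits par w ≤ S)
    (hf : ∀ x, g P.root (db x) = true ↔ hardL A J x) :
    2 ^ n * 2 ^ s ≤ 2 * #{δ : Fin n → ZMod 2 | wt δ < β} *
      (m * 2 ^ (2 * κ + s) + (2 * S + 3) * ((n + 1) * n * 2 ^ n)) := by
  have hpick : ∀ U : Finset (Fin n), ∃ W, κ ≤ #U → W ⊆ U ∧ #W = κ := fun U => by
    by_cases h : κ ≤ #U
    · obtain ⟨W, hW⟩ := exists_subset_card_eq h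
      exact ⟨W, fun _ => hW⟩
    · exact ⟨∅, fun h' => absurd h' h⟩
  choose pick hpick using hpick
  have he : ∀ U : Finset (Fin n), ∃ e : Fin κ → Fin n, #U = κ → Injective e ∧ ∀ i, e i ∈ U :=
    fun U => by
      by_cases h : #U = κ
      · exact ⟨U.orderEmbOfFin h, fun _ => ⟨(U.orderEmbOfFin h).injective, by simp⟩⟩
      · exact ⟨fun i => ⟨i, by omega⟩, fun h' => absurd h' h⟩
  choose e he using he
  obtain ⟨T, hT⟩ := exists_T2 P hP hg pick κ hpick P.root univ (subset_univ _)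
    (Or.inr (by simpa using hn))
  obtain ⟨D, c, M, hM, hD⟩ := cubes2 hP ht
  obtain ⟨O, hO, hO'⟩ := targets hP ht hS
  have hA := atypL (A := A) (J := J) (fun j hj => (hJ j).1 hj) hb (fun z => fr (e (T (db z))))
    fun y z => by rw [db_pw (he _ (hT _).2.1).2, (hT _).2.2.1]
  have hown : ∀ {L : Matrix (Fin n) (Fin κ) (ZMod 2)} {δ j}, GoodL A L L δ j → j ∈ J :=
    fun h => (hJ _).2 fun c hc => h.1 c (by rw [← vecMul_vecMul, hc, zero_vecMul])
  obtain ⟨Ty, hTy⟩ : ∃ Ty : (Fin n → ZMod 2) → Fin m → Prop, ∀ z u, Ty z u ↔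
      ∃ e : Fin κ → Fin n, Injective e ∧ (∀ i, e i ∈ Vs P u) ∧ TypL A J (fr e) z :=
    ⟨_, fun _ _ => Iff.rfl⟩
  have hc0 : ∀ (e : Fin κ → Fin n) z, Injective e → TypL A J (fr e) z →
      ¬ ∀ y y', g P.root (db (z + fr e *ᵥ y)) = g P.root (db (z + fr e *ᵥ y')) := by
    intro e z a1 a2 a3
    obtain ⟨Y, -, hY⟩ := exists_subset_card_eq (s := (univ : Finset (Fin n))) (n := β)
      (by simp; omega)
    have hw : wt (fun i => if i ∈ Y then 1 else 0) = β := by simpa [wt] using hY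
    obtain ⟨j, hj⟩ := hgood _ a1 _ hw.ge (by omega)
    exact decodeL0 (hown hj) hj.1 a2 fun y y' hy => by rwa [← hf, ← a3 y y', hf]
  have hK : ∀ z z' u h h', Injective h → Res P g h (db z) u → Res P g h' (db z') u → Ty z' u →
      (∀ i ∈ Vs P u, z i = z' i) → wt (z - z') ≤ s + 2 * β → wt (z - z') < β := by
    intro z z' u h h' a1 a2 a3 a4 a5 a6
    obtain ⟨e, t1, t2, t3⟩ := (hTy _ _).1 a4
    by_contra a7
    obtain ⟨j, hj⟩ := hgood e t1 _ (not_lt.1 a7) a6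
    have b1 := fun y => a2 _ fun i hi => db_off t2 z y hi
    have b2 := fun y => a3 _ fun i hi => db_off t2 z' y hi
    have b3 : ∀ y, g u (db (z + fr e *ᵥ y)) = g u (db (z' + fr e *ᵥ y)) := fun y =>
      dep P hP hg _ _ u fun i hi => by unfold db; rw [Pi.add_apply, Pi.add_apply, a5 i hi]
    rcases (by decide : ∀ h h' : Bool → Bool, Injective h → (∀ t, h t = h' t) ∨
      (∀ t, h t = !h' t) ∨ ∀ t t', h' t = h' t') h h' a1 with b4 | b4 | b4
    · exact decodeL (hown hj) hj t3 fun y hy => by rwa [← hf, b2, ← b4, ← b3, ← b1, hf]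
    · exact decodeN hb1 (hown hj) hj t3 (z := z) fun y => by
        rw [← hf, ← hf, b1, b2, b3, b4]; simp
    · exact hc0 e z' t1 t3 fun y y' => by rw [b2, b2, b4]
  obtain ⟨Q, hQ⟩ : ∃ Q : Fin m → Fin m → Finset (Fin n → ZMod 2), ∀ a u z, z ∈ Q a u ↔
      (Vs P u ⊆ Vs P a ∧ Str P a) ∧ (∃ h, Res P g h (db z) u) ∧ Ty z u ∧
        ∃ z', TL P g par (db z') a ∧ wt (z - z') < β := by
    classical
    exact ⟨fun a u => univ.filter fun z => (Vs P u ⊆ Vs P a ∧ Str P a) ∧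
      (∃ h, Res P g h (db z) u) ∧ Ty z u ∧ ∃ z', TL P g par (db z') a ∧ wt (z - z') < β, by simp⟩
  have hinj : ∀ z u h, Res P g h (db z) u → Ty z u → Injective h := by
    intro z u h a1 a2
    obtain ⟨e, t1, t2, t3⟩ := (hTy _ _).1 a2
    by_contra a3
    exact hc0 e z t1 t3 fun y y' => by
      rw [a1 _ fun i hi => db_off t2 z y hi, a1 _ fun i hi => db_off t2 z y' hi]
      by_contra a4
      exact a3 (inj_of_ne a4)
  generalize hZ : ({δ | wt δ < β} : Finset (Fin n → ZMod 2)) = Z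
  have hC : ∀ a u, #(Q a u) * 2 ^ s ≤
      #Z * if s ≤ #(Vs P a \ Vs P u) then M a else 2 ^ (#(Vs P u) + s) + M a := by
    intro a u
    rcases eq_empty_or_nonempty (Q a u) with h0 | ⟨z0, hz0⟩
    · rw [h0]; simp
    obtain ⟨⟨b1, b6⟩, -, b2, z1, b3, -⟩ := (hQ _ _ _).1 hz0
    obtain ⟨e0, -, b2, -⟩ := (hTy _ _).1 b2
    have b0 : (Vs P a).Nonempty ∧ Str P a := ⟨⟨_, b1 (b2 ⟨0, hκ⟩)⟩, b6⟩
    obtain ⟨b4, b5, -⟩ := hD a _ b3 b0
    obtain ⟨W, w1, w2⟩ := exists_subset_card_eq (min_le_right s #(D a ∪ Vs P u)ᶜ)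
    have w3 : ∀ i ∈ W, i ∉ D a ∧ i ∉ Vs P u := fun i hi => by simpa using w1 hi
    have a1 := card_fib (Q a u) Z (D a ∪ W)ᶜ fun z hz z' hz' hzz => by
      obtain ⟨-, ⟨h, c1⟩, c2, y, c3, c4⟩ := (hQ _ _ _).1 hz
      obtain ⟨-, ⟨h', d1⟩, d2, y', d3, d4⟩ := (hQ _ _ _).1 hz'
      rw [← hZ]
      refine mem_filter.2 ⟨mem_univ _, hK z z' u h h' (hinj z u h c1 c2) c1 d1 d2
        (fun i hi => hzz i ?_) ?_⟩
      · simp only [mem_compl, mem_union, not_or]
        exact ⟨fun h => disjoint_left.1 b4 h (b1 hi), fun h => (w3 i h).2 hi⟩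
      · have : wt (z - z') ≤ wt (z - y) + wt (z' - y') + #W := by
          refine le_trans (card_le_card fun i hi => ?_) ((card_union_le _ _).trans
            (Nat.add_le_add_right (card_union_le _ _) _))
          have f1 := (mem_filter.1 hi).2
          by_contra f2
          simp only [mem_union, mem_filter, mem_univ, true_and, not_or, not_not, Pi.sub_apply,
            sub_eq_zero] at f2
          refine f1 (sub_eq_zero.2 ?_)
          by_cases hi' : i ∈ D a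
          · rw [f2.1.1, f2.1.2]
            exact db_inj (((hD a _ c3 b0).2.2 i hi').trans ((hD a _ d3 b0).2.2 i hi').symm)
          · exact hzz i (by simp [hi', f2.2])
        have := w2.le.trans (min_le_left _ _)
        omega
    refine (Nat.mul_le_mul_right _ a1).trans ?_
    rw [mul_assoc, ← pow_add]
    refine Nat.mul_le_mul_left _ ?_
    have a2 : #(D a ∪ W) = #(D a) + #W :=
      card_union_of_disjoint (disjoint_right.2 fun i hi => (w3 i hi).1)
    have a3 : #(D a ∪ Vs P u) = #(D a) + #(Vs P u) := card_union_of_disjoint (b4.mono_right b1)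
    have a4 := card_le_univ (D a ∪ Vs P a)
    have a5 := card_le_univ (D a ∪ W)
    have a7 := card_le_card b1
    rw [card_union_of_disjoint b4] at a4
    rw [card_compl, a3] at w2
    rw [card_compl, a2, card_sdiff_of_subset b1]
    simp only [Fintype.card_fin] at a4 a5 w2 ⊢
    rcases le_or_gt s (n - (#(D a) + #(Vs P u))) with a6 | a6
    · refine le_trans (Nat.pow_le_pow_right (by norm_num) (by omega)) (b5.trans ?_)
      split_ifs
      · exact le_rfl
      · exact le_add_self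
    · rw [if_neg (by omega)]
      exact le_trans (Nat.pow_le_pow_right (by norm_num) (by omega)) le_self_add
  have hW : ∀ z v, Ty z v → ∀ q, Fol P (db z) P.root q → Vs P v ⊆ Vs P q →
      (∃ z', TL P g par (db z') q ∧ (∀ i ∈ Vs P q, z' i = z i) ∧ wt (z - z') < β) ∨
        ∃ a, ∃ u ∈ O a, s ≤ #(Vs P a \ Vs P u) ∧ z ∈ Q a u := by
    intro z v hv q hq
    induction hq with
    | refl => exact fun _ => Or.inl ⟨z, TL.root _, fun _ _ => rfl, by rwa [sub_self, wt_zero]⟩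
    | @tail p q e1 e2 ih =>
      intro h
      have e3 := e2.elim fun _ e => In_edge P e.1
      rcases ih (h.trans (Vs_mono P e3)) with ⟨z', a1, a2, a3⟩ | ih
      swap
      · exact Or.inr ih
      obtain ⟨a, b1, b2, b3, b6⟩ := hO' p q e3
      obtain ⟨h0, b4⟩ := fol_res hP hg (e1.tail e2)
      have b5 : Ty z q := by
        obtain ⟨e, t1, t2, t3⟩ := (hTy _ _).1 hv
        exact (hTy _ _).2 ⟨e, t1, fun i => h (t2 i), t3⟩
      have b7 : (Vs P q).Nonempty := ((hTy _ _).1 b5).elim fun _ t => ⟨_, t.2.1 ⟨0, hκ⟩⟩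
      by_cases hs' : s ≤ #(Vs P a \ Vs P q)
      · exact Or.inr ⟨a, q, b3, hs', (hQ _ _ _).2 ⟨⟨un_Vs ht b2,
          b6 b7 (card_pos.1 (by omega))⟩, ⟨h0, b4⟩, b5, z', a1.up b1, a3⟩⟩
      obtain ⟨x, c1, c2⟩ := (a1.up b1).down hP hg hN ht b2 b7
      rw [← db_bits x] at c1 c2
      obtain ⟨h1, c3, c4⟩ := c2.res hP ht
      have c5 : ∀ i ∈ Vs P q, bits x i = z i := fun i hi =>
        (db_inj (c1 i fun h => (mem_sdiff.1 h).2 hi)).trans (a2 i (Vs_mono P e3 hi))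
      have c6 := wt_le (x := z) fun i hi => (db_inj (c1 i hi)).symm
      have c7 : bits x - z = z - bits x := funext fun v => by
        simp only [Pi.sub_apply, CharTwo.sub_eq_add, add_comm]
      have c8 := hK _ z q h1 h0 c3 c4 b4 b5 c5 (by rw [c7]; omega)
      exact Or.inl ⟨_, c2, c5, c7 ▸ c8⟩
  have hE : #(univ : Finset (Fin n → ZMod 2)) ≤ #{z | ¬ TypL A J (fr (e (T (db z)))) z}
      + (∑ v with #(Vs P v) ≤ 2 * κ, #(Q v v)
        + ∑ a, ∑ u ∈ O a with s ≤ #(Vs P a \ Vs P u), #(Q a u)) := by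
    refine le_trans (card_le_card fun z _ => ?_) ((card_union_le _ _).trans
      (Nat.add_le_add_left ((card_union_le _ _).trans (Nat.add_le_add card_biUnion_le
        (card_biUnion_le.trans (sum_le_sum fun _ _ => card_biUnion_le)))) _))
    by_cases c1 : TypL A J (fr (e (T (db z)))) z
    · obtain ⟨t3, t4⟩ := he _ (hT (db z)).2.1
      rcases (hT (db z)).2.2.2 with c2 | ⟨v, h, c2, -, c3, c4, c5, -⟩
      · exact (hc0 _ z t3 c1 fun y y' => by rw [db_pw t4, c2, db_pw t4 z y', c2]).elim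
      · obtain ⟨v', f1, f2, f3⟩ := to_str hP (db z) v
        have f4 := (pass_fol c2).trans f1
        have d1 : Ty z v' :=
          (hTy _ _).2 ⟨_, t3, fun i => f2 ▸ (hpick _ c3).1 (c5 ▸ t4 i), c1⟩
        refine mem_union_right _ ?_
        rcases hW z v' d1 v' f4 Subset.rfl with ⟨z', d2, -, d3⟩ | ⟨a, u, d2, d3, d4⟩
        · exact mem_union_left _ (mem_biUnion.2 ⟨v', mem_filter.2 ⟨mem_univ _, f2 ▸ c4⟩,
            (hQ _ _ _).2 ⟨⟨Subset.rfl, f3⟩, fol_res hP hg f4, d1, z', d2, d3⟩⟩)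
        · exact mem_union_right _ (mem_biUnion.2 ⟨a, mem_univ _,
            mem_biUnion.2 ⟨u, mem_filter.2 ⟨d2, d3⟩, d4⟩⟩)
    · exact mem_union_left _ (mem_filter.2 ⟨mem_univ _, c1⟩)
  simp only [card_univ, Fintype.card_fun, ZMod.card, Fintype.card_fin] at hE
  have h1 : (∑ v with #(Vs P v) ≤ 2 * κ, #(Q v v)) * 2 ^ s
      ≤ #Z * (m * 2 ^ (2 * κ + s) + ∑ v, M v) := by
    rw [sum_mul]
    refine (sum_le_sum (g := fun v => #Z * (2 ^ (2 * κ + s) + M v)) fun v hv => ?_).trans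
      ((sum_le_sum_of_subset (subset_univ _)).trans (le_of_eq ?_))
    · refine (hC v v).trans (Nat.mul_le_mul_left _ ?_)
      have := (mem_filter.1 hv).2
      split_ifs
      · exact le_add_self
      · gcongr; norm_num
    · rw [← mul_sum]
      simp [sum_add_distrib]
  have h2 : (∑ a, ∑ u ∈ O a with s ≤ #(Vs P a \ Vs P u), #(Q a u)) * 2 ^ s
      ≤ #Z * ((2 * S + 2) * ∑ v, M v) := by
    rw [sum_mul, mul_sum, mul_sum]
    refine sum_le_sum fun a _ => ?_
    rw [sum_mul]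
    refine (sum_le_card_nsmul _ _ (#Z * M a) fun u hu => ?_).trans ?_
    · simpa only [if_pos (mem_filter.1 hu).2] using hC a u
    · rw [smul_eq_mul, mul_left_comm]
      gcongr
      exact (card_filter_le _ _).trans (hO a)
  generalize ∑ v with #(Vs P v) ≤ 2 * κ, #(Q v v) = X at hE h1
  generalize ∑ a, ∑ u ∈ O a with s ≤ #(Vs P a \ Vs P u), #(Q a u) = Y at hE h2
  calc 2 ^ n * 2 ^ s ≤ (2 * (X + Y)) * 2 ^ s := Nat.mul_le_mul_right _ (by omega)
    _ = 2 * (X * 2 ^ s + Y * 2 ^ s) := by ring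
    _ ≤ 2 * (#Z * (m * 2 ^ (2 * κ + s) + ∑ v, M v) + #Z * ((2 * S + 2) * ∑ v, M v)) := by gcongr
    _ = 2 * #Z * (m * 2 ^ (2 * κ + s) + (2 * S + 3) * ∑ v, M v) := by ring
    _ ≤ _ := by gcongr

theorem ca_main (n k s : ℕ) (hk : 10 ^ 10 * (Nat.log 2 n + 1) ≤ k) (hks : k ≤ s) (hs : s ≤ n) :
    ∃ F : Fm n, F.size * k ^ 2 ≤ 10 ^ 10 * s * n ^ 2 * (Nat.log 2 n + 1) ^ 3 ∧
      ∀ (m : ℕ) (P : DD n m) (par : Fin m → Fin m × Bool), P.Valid → P.ComputesN F.eval →
        P.CallTree par → 2 ^ (n - k) ≤ m ∨ ∃ w, 2 ^ (s - k) ≤ P.hits par w := by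
  have hn : n + 1 ≤ 2 ^ (Nat.log 2 n + 1) := Nat.lt_pow_succ_log_self (by norm_num) n
  generalize hl : Nat.log 2 n + 1 = l at hn hk
  have hl1 : 1 ≤ l := by omega
  obtain ⟨β, hβ⟩ : ∃ β, β = (k - 4) / (17 * (43 * l + 17)) := ⟨_, rfl⟩
  have hβ2 : 2 ≤ β := by
    rw [hβ, Nat.le_div_iff_mul_le (by omega)]; omega
  have h1 : β * (17 * (43 * l + 17)) ≤ k - 4 := hβ ▸ Nat.div_mul_le_self _ _
  have h2 : k - 4 < (β + 1) * (17 * (43 * l + 17)) := by
    rw [← Nat.div_lt_iff_lt_mul (by omega), ← hβ]; omega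
  obtain ⟨κ, hκ⟩ : ∃ κ, κ = 8 * (β * (43 * l + 16 + 1)) := ⟨_, rfl⟩
  have h3 : 2 * κ + 4 + l * β ≤ k := by
    have : β * (17 * (43 * l + 17)) = 2 * κ + l * β + β * (42 * l + 17) := by rw [hκ]; ring
    omega
  have h4 : k ≤ 2000 * (l * β) := by
    have : k < 4 + (β + 1) * (17 * (43 * l + 17)) := by omega
    nlinarith
  have h5 : β ≤ k := by nlinarith
  obtain ⟨d, hd1, hd2⟩ := exists_width n β (by omega) (by omega)
  obtain ⟨blk, pos, hinj⟩ : ∃ (blk : Fin n → Fin (2 ^ d)) (pos : Fin n → Fin β),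
      ∀ u v, blk u = blk v → pos u = pos v → u = v :=
    ⟨fun v => ⟨v.val / β, (Nat.div_lt_iff_lt_mul (by omega)).2 (lt_of_lt_of_le v.2 hd1)⟩,
    fun v => ⟨v.val % β, Nat.mod_lt _ (by omega)⟩,
    fun u v a1 a2 => Fin.ext (by
      rw [← Nat.div_add_mod u.val β, ← Nat.div_add_mod v.val β,
        show u.val / β = v.val / β from congrArg Fin.val a1,
        show u.val % β = v.val % β from congrArg Fin.val a2])⟩
  obtain ⟨A, hA⟩ := exists_B hinj hβ2 l s hn hl1 (by omega) hs hκ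
  obtain ⟨F, hF1, hF2⟩ := rep_L d (fun j => mat blk pos (A j)) (fun j i => le_trans
    (card_le_card fun v hv => gv_supp blk pos (A j i) v (mem_filter.1 hv).2)
    (card_supp blk pos hinj _)) (univ.filter fun j => ∀ c, c ᵥ* mat blk pos (A j) = 0 → c = 0)
  refine ⟨F, ?_, fun m P par r1 ⟨g, r2, r3, r4⟩ r5 => ?_⟩
  · have e1 : 2 ^ d * k ≤ 4000 * (l * n) := by
      calc 2 ^ d * k ≤ 2 ^ d * (2000 * (l * β)) := by gcongr
        _ = 2000 * l * (2 ^ d * β) := by ring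
        _ ≤ 2000 * l * (2 * n) := by gcongr
        _ = _ := by ring
    have e2 : 4 ^ d * k ^ 2 ≤ (4000 * (l * n)) ^ 2 := by
      rw [show (4 : ℕ) = 2 ^ 2 by norm_num, ← pow_mul, mul_comm 2 d, pow_mul, ← mul_pow]
      gcongr
    have e3 : 1 ≤ l ^ 3 := Nat.one_le_pow _ _ hl1
    have e4 : k ≤ n := by omega
    calc F.size * k ^ 2 ≤ (4 * s * (20 * l * 4 ^ d + 1) + s) * k ^ 2 := by
          gcongr; omega
      _ = 80 * s * l * (4 ^ d * k ^ 2) + 5 * s * k ^ 2 * 1 := by ring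
      _ ≤ 80 * s * l * (4000 * (l * n)) ^ 2 + 5 * s * n ^ 2 * l ^ 3 := by gcongr
      _ = 1280000005 * s * n ^ 2 * l ^ 3 := by ring
      _ ≤ _ := by gcongr; norm_num
  · have hg : Rules P g := ⟨fun u c h x => by rw [r3, h], fun u i a b h x => by rw [r3, h],
      fun u op a b h x => by rw [r3, h]⟩
    by_contra hc
    simp only [not_or, not_le, not_exists] at hc
    have h6 : β + l + 1 ≤ κ := by rw [hκ]; nlinarith
    have h7 : s - 2 * β + 2 * β = s := by omega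
    have h := ca_lower P par (s := s - 2 * β) (β := β) (fun j => mat blk pos (A j))
      (univ.filter fun j => ∀ c, c ᵥ* mat blk pos (A j) = 0 → c = 0) (show 0 < κ by omega)
      (by omega) (by omega) (by omega) (by omega)
      (by
        have : 2 ^ (l + 4) ≤ 2 ^ (20 * l) := Nat.pow_le_pow_right (by norm_num) (by omega)
        rw [pow_add] at this
        omega) (by omega) (fun j => by simp) (by rw [h7]; exact hA) r1 hg r4 r5
      (fun w => Nat.le_sub_one_of_lt (hc.2 w))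
      (fun x => by rw [r2, hF2]; exact iff_of_eq (congrArg _ (bits_dec x)))
    have hZ : #{δ : Fin n → ZMod 2 | wt δ < β} ≤ 2 ^ (l * β) := by
      rw [pow_mul]
      exact le_trans (card_le_card fun δ hδ => mem_filter.2
        ⟨mem_univ _, (mem_filter.1 hδ).2.trans (Nat.lt_succ_self _)⟩)
        ((ball β).trans (by gcongr))
    have h8 : 2 * (2 ^ (s - k) - 1) + 3 ≤ 2 ^ (s - k) * 2 ^ 2 := by
      have : 0 < 2 ^ (s - k) := by positivity
      omega
    refine absurd h (not_le.2 ?_)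
    calc _ ≤ 2 * 2 ^ (l * β) * (m * 2 ^ (2 * κ + (s - 2 * β))
          + 2 ^ (s - k) * 2 ^ 2 * (2 ^ l * 2 ^ l * 2 ^ n)) := by gcongr; omega
      _ < 2 * 2 ^ (l * β) * (2 ^ (n - k) * 2 ^ (2 * κ + (s - 2 * β))
          + 2 ^ (n - k + (2 * κ + (s - 2 * β)))) := by
          refine Nat.mul_lt_mul_of_pos_left (Nat.add_lt_add_of_lt_of_le
            (Nat.mul_lt_mul_of_pos_right hc.1 (by positivity)) ?_) (by positivity)
          simp only [← pow_add]
          exact Nat.pow_le_pow_right (by norm_num) (by omega)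
      _ = 2 ^ (2 + l * β + (n - k + (2 * κ + (s - 2 * β)))) := by
          rw [← pow_add]
          ring
      _ ≤ _ := by
          rw [← pow_add]
          exact Nat.pow_le_pow_right (by norm_num) (by omega)

end Pool.Agent.MP_ed3b92_lc
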