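import Mathlib

open Finset Function Matrix Module

namespace Pool.Agent.MP_ed3b92_lc

section la
variable {ι ι' κ : Type} [Fintype ι] [DecidableEq ι] [Fintype ι'] [DecidableEq ι'] [Fintype κ]
  [DecidableEq κ]

lemma projM {S N : Submodule (ZMod 2) (κ → ZMod 2)} (h : Disjoint S N) :
    ∃ M : Matrix κ κ (ZMod 2), (∀ p ∈ S, p ᵥ* M = p) ∧ ∀ p ∈ N, p ᵥ* M = 0 := by
  obtain ⟨C, hC, hc⟩ := h.symm.exists_isCompl
  refine ⟨(LinearMap.toMatrix' (S.projection C hc.symm))ᵀ, fun p hp => ?_, fun p hp => ?_⟩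
  · rw [vecMul_transpose, LinearMap.toMatrix'_mulVec, Submodule.projection_apply_of_mem_left _ hp]
  · rw [vecMul_transpose, LinearMap.toMatrix'_mulVec,
      Submodule.projection_apply_of_mem_right _ (hC hp)]

lemma rinv (R : Matrix ι κ (ZMod 2)) (h : ∀ c, c ᵥ* R = 0 → c = 0) :
    ∃ X : Matrix κ ι (ZMod 2), R * X = 1 := by
  obtain ⟨g, hg⟩ := LinearMap.exists_leftInverse_of_injective R.vecMulLinear
    (LinearMap.ker_eq_bot'.2 fun c hc => h c (by simpa using hc))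
  refine ⟨(LinearMap.toMatrix' g)ᵀ, ext_iff_vecMul.2 fun c => ?_⟩
  rw [← vecMul_vecMul, vecMul_transpose, LinearMap.toMatrix'_mulVec, vecMul_one]
  simpa using LinearMap.congr_fun hg c

/-- the rows of `R` are independent modulo the rows of `R'` -/
def Ind (R : Matrix ι κ (ZMod 2)) (R' : Matrix ι' κ (ZMod 2)) : Prop :=
  ∀ c c', c ᵥ* R = c' ᵥ* R' → c = 0

instance (R : Matrix ι κ (ZMod 2)) (R' : Matrix ι' κ (ZMod 2)) : Decidable (Ind R R') := by
  unfold Ind; infer_instance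

lemma sec {R : Matrix ι κ (ZMod 2)} {R' : Matrix ι' κ (ZMod 2)} (h : Ind R R') :
    ∃ X : Matrix κ ι (ZMod 2), R * X = 1 ∧ R' * X = 0 := by
  obtain ⟨X, hX⟩ := rinv R fun c hc => h c 0 (by simpa using hc)
  obtain ⟨M, h1, h2⟩ := projM (S := LinearMap.range R.vecMulLinear)
    (N := LinearMap.range R'.vecMulLinear) (Submodule.disjoint_def.2 (by
      rintro _ ⟨c, rfl⟩ ⟨c', hc'⟩
      have := h c c' (by simpa using hc'.symm)
      simp [this]))
  refine ⟨M * X, ext_iff_vecMul.2 fun c => ?_, ext_iff_vecMul.2 fun c => ?_⟩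
  · rw [← vecMul_vecMul, ← vecMul_vecMul, h1 _ ⟨c, by simp⟩, vecMul_vecMul, hX]
  · rw [← vecMul_vecMul, ← vecMul_vecMul, h2 _ ⟨c, by simp⟩]; simp

lemma frame {S : Submodule (ZMod 2) (κ → ZMod 2)} {k : ℕ} (h : k ≤ finrank (ZMod 2) S) :
    ∃ (Q : Matrix (Fin k) κ (ZMod 2)) (X : Matrix κ (Fin k) (ZMod 2)),
      (∀ c, c ᵥ* Q ∈ S) ∧ Q * X = 1 := by
  obtain ⟨f, hf⟩ := exists_linearIndependent_of_le_finrank h
  have h1 : ∀ c : Fin k → ZMod 2, c ᵥ* (Matrix.of fun i => (f i : κ → ZMod 2))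
      = ((∑ i, c i • f i : S) : κ → ZMod 2) := fun c => by
    rw [vecMul_eq_sum]; simp; rfl
  obtain ⟨X, hX⟩ := rinv (Matrix.of fun i => (f i : κ → ZMod 2)) fun c hc => by
    rw [h1] at hc
    exact funext (Fintype.linearIndependent_iff.1 hf c (Subtype.ext hc))
  exact ⟨_, X, fun c => by rw [h1]; exact SetLike.coe_mem _, hX⟩

lemma equiL {R : Matrix ι κ (ZMod 2)} {R' : Matrix ι' κ (ZMod 2)} (h : Ind R R')
    (a : ι → ZMod 2) (a' : ι' → ZMod 2) :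
    2 ^ Fintype.card ι * #{y | R *ᵥ y = a ∧ R' *ᵥ y = a'} = #{y | R' *ᵥ y = a'} := by
  obtain ⟨X, h1, h2⟩ := sec h
  have : 2 ^ Fintype.card ι = #(univ : Finset (ι → ZMod 2)) := by simp
  rw [this, ← card_product]
  refine card_nbij' (fun p => p.2 + X *ᵥ p.1)
    (fun y => (R *ᵥ y - a, y - X *ᵥ (R *ᵥ y - a))) ?_ ?_ ?_ ?_
  · intro p hp
    simp only [coe_product, coe_filter, mem_univ, true_and, Set.mem_prod, Set.mem_ofPred_eq]
      at hp ⊢
    rw [mulVec_add, mulVec_mulVec, h2, hp.2.2]; simp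
  · intro y hy
    simp only [coe_product, coe_filter, mem_univ, true_and, Set.mem_prod, Set.mem_ofPred_eq]
      at hy ⊢
    refine ⟨by simp, ?_, ?_⟩
    · rw [mulVec_sub, mulVec_mulVec, h1]; simp
    · rw [mulVec_sub, mulVec_mulVec, h2, hy]; simp
  · intro p hp
    simp only [coe_product, coe_filter, mem_univ, true_and, Set.mem_prod, Set.mem_ofPred_eq] at hp
    have : R *ᵥ (p.2 + X *ᵥ p.1) - a = p.1 := by
      rw [mulVec_add, mulVec_mulVec, h1, hp.2.1]; simp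
    simp [this]
  · intro y _; simp

lemma equiL0 {R : Matrix ι κ (ZMod 2)} (h : ∀ c, c ᵥ* R = 0 → c = 0) (a : ι → ZMod 2) :
    2 ^ Fintype.card ι * #{y | R *ᵥ y = a} = 2 ^ Fintype.card κ := by
  have := equiL (R := R) (R' := (0 : Matrix (Fin 0) κ (ZMod 2)))
    (fun c c' hc => h c (by simpa using hc)) a 0
  simpa using this

lemma colfib {L : Matrix κ ι (ZMod 2)} {Q : Matrix ι κ (ZMod 2)} (h : Q * L = 1)
    (u : ι → ZMod 2) : #{a | a ᵥ* L = u} * 2 ^ Fintype.card ι = 2 ^ Fintype.card κ := by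
  have := equiL0 (R := Lᵀ) (fun c hc => by
    rw [vecMul_transpose] at hc
    have := congrArg (Q *ᵥ ·) hc
    simpa [mulVec_mulVec, h] using this) u
  simp only [mulVec_transpose] at this
  rw [mul_comm, this]

end la

variable {n b κ N : ℕ}

/-- the points of the affine frame `(L, z)` on which all guards `R` vanish -/
def Dn (R : Matrix (Fin b) (Fin n) (ZMod 2)) (L : Matrix (Fin n) (Fin κ) (ZMod 2))
    (z : Fin n → ZMod 2) : Finset (Fin κ → ZMod 2) := {y | R *ᵥ (z + L *ᵥ y) = 0}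

lemma mem_Dn {R : Matrix (Fin b) (Fin n) (ZMod 2)} {L : Matrix (Fin n) (Fin κ) (ZMod 2)}
    {z : Fin n → ZMod 2} {y : Fin κ → ZMod 2} : y ∈ Dn R L z ↔ R *ᵥ (z + L *ᵥ y) = 0 := by
  simp [Dn]

lemma mem_Dn' {R : Matrix (Fin b) (Fin n) (ZMod 2)} {L : Matrix (Fin n) (Fin κ) (ZMod 2)}
    {z : Fin n → ZMod 2} {y : Fin κ → ZMod 2} : y ∈ Dn R L z ↔ (R * L) *ᵥ y = -(R *ᵥ z) := by
  rw [mem_Dn, mulVec_add, mulVec_mulVec, add_comm, add_eq_zero_iff_eq_neg]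

lemma Dn_inter {R R' : Matrix (Fin b) (Fin n) (ZMod 2)} {L L' : Matrix (Fin n) (Fin κ) (ZMod 2)}
    (h : Ind (R * L) (R' * L')) (z z' : Fin n → ZMod 2) :
    2 ^ b * #(Dn R L z ∩ Dn R' L' z') = #(Dn R' L' z') := by
  have := equiL h (-(R *ᵥ z)) (-(R' *ᵥ z'))
  rw [Fintype.card_fin] at this
  refine Eq.trans ?_ (this.trans ?_)
  · congr 2; ext y; simp [mem_Dn']
  · congr 1; ext y; simp [mem_Dn']

lemma Dn_card {R : Matrix (Fin b) (Fin n) (ZMod 2)} {L : Matrix (Fin n) (Fin κ) (ZMod 2)}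
    (h : ∀ c, c ᵥ* (R * L) = 0 → c = 0) (z : Fin n → ZMod 2) : 2 ^ b * #(Dn R L z) = 2 ^ κ := by
  have := equiL0 h (-(R *ᵥ z))
  simp only [Fintype.card_fin] at this
  rw [← this]
  congr 2; ext y; simp [mem_Dn']

lemma Dn_half {R : Matrix (Fin b) (Fin n) (ZMod 2)} {L L' : Matrix (Fin n) (Fin κ) (ZMod 2)}
    {z z' : Fin n → ZMod 2} (h2 : R *ᵥ (z - z') ≠ 0)
    (h3 : ∀ i c, (R * L') i = c ᵥ* (R * L) → (R * L') i = (R * L) i) :
    2 * #(Dn R L z ∩ Dn R L' z') ≤ #(Dn R L z) := by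
  obtain ⟨i, hi⟩ := Function.ne_iff.1 h2
  by_cases hI : Ind (Matrix.of fun _ : Fin 1 => (R * L') i) (R * L)
  · have := equiL hI (fun _ => (-(R *ᵥ z')) i) (-(R *ᵥ z))
    rw [Fintype.card_fin, pow_one] at this
    calc _ ≤ _ := Nat.mul_le_mul_left 2 (card_le_card fun y hy => ?_)
      _ = _ := this
      _ = _ := by congr 1; ext y; simp [mem_Dn']
    rw [mem_inter, mem_Dn', mem_Dn'] at hy
    refine mem_filter.2 ⟨mem_univ _, funext fun _ => ?_, hy.1⟩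
    rw [← hy.2]; rfl
  · simp only [Ind, not_forall] at hI
    obtain ⟨c, c', h4, h5⟩ := hI
    have h6 : c 0 = 1 := by
      have : c 0 ≠ 0 := fun e => h5 (funext fun k => by rw [Subsingleton.elim k 0, e]; rfl)
      revert this; generalize c 0 = t; revert t; decide
    have h7 := h3 i c' (by rw [← h4, vecMul_eq_sum]; simp [h6]; rfl)
    have : Dn R L z ∩ Dn R L' z' = ∅ := by
      refine eq_empty_of_forall_notMem fun y hy => hi ?_
      rw [mem_inter, mem_Dn', mem_Dn'] at hy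
      have a1 := congrFun hy.1 i
      have a2 := congrFun hy.2 i
      have a3 : ((R * L') *ᵥ y) i = ((R * L) *ᵥ y) i := by
        change (R * L') i ⬝ᵥ y = (R * L) i ⬝ᵥ y
        rw [h7]
      rw [a1, a2] at a3
      rw [mulVec_sub, Pi.sub_apply, sub_eq_iff_eq_add]
      simpa using a3.symm
    simp [this]

variable (A : Fin N → Matrix (Fin b) (Fin n) (ZMod 2)) (J : Finset (Fin N))

/-- the hard function -/
def hardL (x : Fin n → ZMod 2) : Prop := ∃ j ∈ J, A j *ᵥ x = 0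

/-- typical frames -/
def TypL (L : Matrix (Fin n) (Fin κ) (ZMod 2)) (z : Fin n → ZMod 2) : Prop :=
  2 * ∑ j ∈ J, #(Dn (A j) L z) < 2 ^ κ

instance (L : Matrix (Fin n) (Fin κ) (ZMod 2)) (z : Fin n → ZMod 2) :
    Decidable (TypL A J L z) := by unfold TypL; infer_instance

/-- term `j` separates the frames -/
def GoodL (L L' : Matrix (Fin n) (Fin κ) (ZMod 2)) (δ : Fin n → ZMod 2) (j : Fin N) : Prop :=
  (∀ c, c ᵥ* (A j * L) = 0 → c = 0) ∧ (∀ j', j' ≠ j → Ind (A j * L) (A j' * L')) ∧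
    A j *ᵥ δ ≠ 0 ∧ ∀ i c, (A j * L') i = c ᵥ* (A j * L) → (A j * L') i = (A j * L) i

variable {A J}

lemma decodeL {L L' : Matrix (Fin n) (Fin κ) (ZMod 2)} {z z' : Fin n → ZMod 2} {j : Fin N}
    (hJ : j ∈ J) (hg : GoodL A L L' (z - z') j) (ht : TypL A J L' z')
    (h : ∀ y, hardL A J (z + L *ᵥ y) → hardL A J (z' + L' *ᵥ y)) : False := by
  obtain ⟨g0, g1, g2, g3⟩ := hg
  have h1 : #(Dn (A j) L z) ≤ #(Dn (A j) L z ∩ Dn (A j) L' z')
      + ∑ j' ∈ J.erase j, #(Dn (A j) L z ∩ Dn (A j') L' z') := by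
    refine le_trans (card_le_card fun y hy => ?_)
      ((card_union_le _ _).trans (Nat.add_le_add_left card_biUnion_le _))
    obtain ⟨j', hj', a⟩ := h y ⟨j, hJ, mem_Dn.1 hy⟩
    by_cases e : j' = j
    · exact mem_union_left _ (mem_inter.2 ⟨hy, mem_Dn.2 (e ▸ a)⟩)
    · exact mem_union_right _ (mem_biUnion.2 ⟨j', mem_erase.2 ⟨e, hj'⟩,
        mem_inter.2 ⟨hy, mem_Dn.2 a⟩⟩)
  have h2 := Dn_half g2 g3
  have h3 : #(Dn (A j) L z) ≤ 2 * ∑ j' ∈ J.erase j, #(Dn (A j) L z ∩ Dn (A j') L' z') := by omega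
  have h4 := Nat.mul_le_mul_left (2 ^ b) h3
  rw [Dn_card g0, mul_left_comm, mul_sum,
    sum_congr rfl fun j' hj' => Dn_inter (g1 j' (ne_of_mem_erase hj')) z z'] at h4
  have h5 := sum_le_sum_of_subset (f := fun j' => #(Dn (A j') L' z')) (erase_subset j J)
  unfold TypL at ht
  omega

lemma decodeL0 {L : Matrix (Fin n) (Fin κ) (ZMod 2)} {z : Fin n → ZMod 2} {j : Fin N}
    (hJ : j ∈ J) (g0 : ∀ c, c ᵥ* (A j * L) = 0 → c = 0) (ht : TypL A J L z)
    (h : ∀ y y', hardL A J (z + L *ᵥ y) → hardL A J (z + L *ᵥ y')) : False := by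
  have h0 : 0 < #(Dn (A j) L z) := by
    have := Dn_card g0 z
    rcases Nat.eq_zero_or_pos #(Dn (A j) L z) with h | h
    · rw [h] at this; exact absurd this (by simp; positivity)
    · exact h
  obtain ⟨y, hy⟩ := card_pos.1 h0
  have h1 : #(univ : Finset (Fin κ → ZMod 2)) ≤ ∑ j' ∈ J, #(Dn (A j') L z) := by
    refine le_trans (card_le_card fun y' _ => ?_) card_biUnion_le
    obtain ⟨j', hj', a⟩ := h y y' ⟨j, hJ, mem_Dn.1 hy⟩
    exact mem_biUnion.2 ⟨j', hj', mem_Dn.2 a⟩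
  unfold TypL at ht
  simp only [card_univ, Fintype.card_fun, ZMod.card, Fintype.card_fin] at h1
  omega

lemma atypL (hJ : ∀ j ∈ J, ∀ c, c ᵥ* A j = 0 → c = 0) (hb : 4 * N ≤ 2 ^ b)
    (L : (Fin n → ZMod 2) → Matrix (Fin n) (Fin κ) (ZMod 2))
    (hL : ∀ y z, L (z + L z *ᵥ y) = L z) : #{z | ¬ TypL A J (L z) z} * 2 ≤ 2 ^ n := by
  have hinv : Involutive (fun p : (Fin n → ZMod 2) × (Fin κ → ZMod 2) =>
      (p.1 + L p.1 *ᵥ p.2, p.2)) := by
    rintro ⟨z, y⟩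
    have : L z *ᵥ y + L z *ᵥ y = 0 := funext fun v => CharTwo.add_self_eq_zero _
    simp only [hL, add_assoc, this, add_zero]
  have h1 : ∀ j ∈ J, 2 ^ b * ∑ z, #(Dn (A j) (L z) z) = 2 ^ κ * 2 ^ n := by
    intro j hj
    have a1 : ∑ z, #(Dn (A j) (L z) z) = ∑ p : (Fin n → ZMod 2) × (Fin κ → ZMod 2),
          if A j *ᵥ (p.1 + L p.1 *ᵥ p.2) = 0 then 1 else 0 := by
      rw [Fintype.sum_prod_type]
      exact sum_congr rfl fun z _ => card_filter _ _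
    have a2 : (∑ p : (Fin n → ZMod 2) × (Fin κ → ZMod 2),
          if A j *ᵥ (p.1 + L p.1 *ᵥ p.2) = 0 then 1 else 0)
        = ∑ p : (Fin n → ZMod 2) × (Fin κ → ZMod 2), if A j *ᵥ p.1 = 0 then 1 else 0 :=
      Equiv.sum_comp hinv.toPerm (fun p => if A j *ᵥ p.1 = 0 then (1 : ℕ) else 0)
    have a3 := equiL0 (hJ j hj) 0
    simp only [Fintype.card_fin] at a3
    rw [a1, a2, Fintype.sum_prod_type, sum_comm]
    dsimp only
    simp only [← card_filter]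
    rw [sum_const, smul_eq_mul, mul_left_comm, a3]
    simp
  have h2 : #{z | ¬ TypL A J (L z) z} * 2 ^ κ ≤ ∑ z, 2 * ∑ j ∈ J, #(Dn (A j) (L z) z) := by
    rw [← smul_eq_mul, ← sum_const]
    refine le_trans (sum_le_sum fun z hz => ?_) (sum_le_sum_of_subset (subset_univ _))
    exact not_lt.1 (mem_filter.1 hz).2
  have h3 : 2 ^ b * (#{z | ¬ TypL A J (L z) z} * 2 ^ κ) ≤ 2 * (N * (2 ^ κ * 2 ^ n)) := by
    refine (Nat.mul_le_mul_left _ h2).trans ?_
    rw [← mul_sum, mul_left_comm, sum_comm, mul_sum, sum_congr rfl h1, sum_const, smul_eq_mul]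
    gcongr
    simpa using card_le_univ J
  refine Nat.le_of_mul_le_mul_right ?_ (show 0 < 2 ^ b * 2 ^ κ by positivity)
  calc _ = 2 * (2 ^ b * (#{z | ¬ TypL A J (L z) z} * 2 ^ κ)) := by ring
    _ ≤ 2 * (2 * (N * (2 ^ κ * 2 ^ n))) := by gcongr
    _ = (4 * N) * (2 ^ κ * 2 ^ n) := by ring
    _ ≤ 2 ^ b * (2 ^ κ * 2 ^ n) := by gcongr
    _ = _ := by ring

end Pool.Agent.MP_ed3b92_lc
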