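import Mathlib
import Pool.Agent.MP_ed3b92_lc.Defs

namespace Pool.Agent.MP_ed3b92_lc

/-- Node labels of a parity diagram with `m` nodes: a sink with an output bit; a decision node
testing the parity `q · x` over `ZMod 2`, with 0-child `a` and 1-child `b`; a gate applying a
binary Boolean operation `h` to the values of its children `a`, `b`. -/
inductive LNd (n m : ℕ) : Type
  | sink (c : Bool) : LNd n m
  | dec (q : Fin n → ZMod 2) (a b : Fin m) : LNd n m
  | gate (h : Bool → Bool → Bool) (a b : Fin m) : LNd n m

/-- A parity diagram on `n` variables with `m` nodes (sinks included). -/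
structure LD (n m : ℕ) where
  lab : Fin m → LNd n m
  root : Fin m

/-- `v` is a child of `u`. -/
def LD.Edge {n m : ℕ} (P : LD n m) (u v : Fin m) : Prop :=
  match P.lab u with
  | .sink _ => False
  | .dec _ a b => v = a ∨ v = b
  | .gate _ a b => v = a ∨ v = b

/-- The span of the linear forms tested at nodes reachable from `u` (`u` included). -/
def LD.Post {n m : ℕ} (P : LD n m) (u : Fin m) : Submodule (ZMod 2) (Fin n → ZMod 2) :=
  Submodule.span (ZMod 2) {q | ∃ v a b, Relation.ReflTransGen P.Edge u v ∧ P.lab v = .dec q a b}

/-- Acyclic (children are numbered lower); bottom-read-once (a tested form is outside the span of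
the forms tested below each child); the two children of a gate test independent spans. -/
def LD.Valid {n m : ℕ} (P : LD n m) : Prop :=
  (∀ u v, P.Edge u v → v < u) ∧
  (∀ u q a b, P.lab u = .dec q a b → q ∉ P.Post a ∧ q ∉ P.Post b) ∧
  (∀ u h a b, P.lab u = .gate h a b → Disjoint (P.Post a) (P.Post b))

/-- The diagram computes `f`: the node functions `g u`, fixed by the local rules, give `f` at
the root. -/
def LD.Computes {n m : ℕ} (P : LD n m) (f : (Fin n → Bool) → Bool) : Prop :=
  ∃ g : Fin m → (Fin n → Bool) → Bool, g P.root = f ∧ ∀ u x, g u x =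
    match P.lab u with
    | .sink c => c
    | .dec q a b => if ∑ i, q i * (if x i = true then 1 else 0) = 1 then g b x else g a x
    | .gate h a b => h (g a x) (g b x)

end Pool.Agent.MP_ed3b92_lc
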