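import Mathlib
import Pool.Agent.MP_ed3b92_lc.Char

open Finset Function

namespace Pool.Agent.MP_ed3b92_lc

/-- A deterministic branching program on `n` variables with `m` nodes (sinks included):
every node is labelled by a variable (inner node, two successors) or by an output bit (sink). -/
structure BP (n m : ℕ) where
  lab : Fin m → Fin n ⊕ Bool
  nxt : Fin m → Bool → Fin m
  root : Fin m

/-- One step on input `x`: an inner node labelled `i` moves along the edge `x i`; a sink stays. -/
def BP.step {n m : ℕ} (P : BP n m) (x : Fin n → Bool) (v : Fin m) : Fin m :=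
  match P.lab v with
  | .inl i => P.nxt v (x i)
  | .inr _ => v

/-- The node reached from the root after `t` steps on input `x`. -/
def BP.node {n m : ℕ} (P : BP n m) (x : Fin n → Bool) (t : ℕ) : Fin m :=
  (P.step x)^[t] P.root

/-- Read-once: on no input does the computation path query a variable twice. -/
def BP.ReadOnce {n m : ℕ} (P : BP n m) : Prop :=
  ∀ (x : Fin n → Bool) (s t : ℕ) (i : Fin n), s < t →
    P.lab (P.node x s) = .inl i → P.lab (P.node x t) ≠ .inl i

/-- The program computes `f`: after `n` steps on input `x` it is at a sink labelled `f x`. -/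
def BP.Computes {n m : ℕ} (P : BP n m) (f : (Fin n → Bool) → Bool) : Prop :=
  ∀ x : Fin n → Bool, P.lab (P.node x n) = .inr (f x)

variable {n m : ℕ} (P : BP n m)

lemma agree (u : Fin m) (x x' : Fin n → Bool) (t : ℕ)
    (h : ∀ s < t, ∀ i, P.lab ((P.step x)^[s] u) = .inl i → x' i = x i) :
    ∀ s ≤ t, (P.step x')^[s] u = (P.step x)^[s] u := by
  intro s
  induction s with
  | zero => simp
  | succ s ih =>
    intro hs
    rw [iterate_succ_apply', iterate_succ_apply', ih (by omega)]
    have := h s (by omega)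
    generalize (P.step x)^[s] u = v at this
    unfold BP.step
    cases hl : P.lab v with
    | inl i => simp [this i hl]
    | inr c => rfl

lemma sink_stay (x : Fin n → Bool) {u : Fin m} {c : Bool} (h : P.lab u = .inr c) (s : ℕ) :
    (P.step x)^[s] u = u :=
  iterate_fixed (by unfold BP.step; rw [h]) s

lemma node_add (x : Fin n → Bool) (s t : ℕ) :
    P.node x (s + t) = (P.step x)^[s] (P.node x t) := iterate_add_apply _ _ _ _

/-- variables read in the first `r` steps -/
def Rd (r : ℕ) (z : Fin n → Bool) : Finset (Fin n) :=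
  {i | ∃ s < r, P.lab (P.node z s) = .inl i}

open Classical in
/-- variables that can be read from node `u` on -/
noncomputable def Sv (u : Fin m) : Finset (Fin n) :=
  {i | ∃ (x : Fin n → Bool) (s : ℕ), P.lab ((P.step x)^[s] u) = .inl i}

lemma mem_Rd {r : ℕ} {z : Fin n → Bool} {i : Fin n} :
    i ∈ Rd P r z ↔ ∃ s < r, P.lab (P.node z s) = .inl i := by simp [Rd]

lemma mem_Sv {u : Fin m} {i : Fin n} :
    i ∈ Sv P u ↔ ∃ (x : Fin n → Bool) (s : ℕ), P.lab ((P.step x)^[s] u) = .inl i := by simp [Sv]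

lemma node_agree {r : ℕ} {x z : Fin n → Bool} (h : ∀ i ∈ Rd P r z, x i = z i) :
    ∀ s ≤ r, P.node x s = P.node z s :=
  agree P P.root z x r fun s hs i hi => h i ((mem_Rd P).2 ⟨s, hs, hi⟩)

lemma Rd_agree {r : ℕ} {x z : Fin n → Bool} (h : ∀ i ∈ Rd P r z, x i = z i) :
    Rd P r x = Rd P r z := by
  ext i
  simp only [mem_Rd]
  exact exists_congr fun s => and_congr_right fun hs => by rw [node_agree P h s hs.le]

lemma disj (hP : P.ReadOnce) (r : ℕ) (z : Fin n → Bool) :
    ∀ i ∈ Rd P r z, i ∉ Sv P (P.node z r) := by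
  have key : ∀ (x : Fin n → Bool) (s : ℕ), ∀ i ∈ Rd P r z,
      P.lab ((P.step x)^[s] (P.node z r)) ≠ .inl i := by
    intro x s
    induction s using Nat.strong_induction_on with
    | _ s ih =>
      intro i hi hl
      have h1 := node_agree P (x := pw (Rd P r z) z x) (z := z) (r := r) fun i hi => pw_mem hi
      have h2 := agree P (P.node z r) x (pw (Rd P r z) z x) s
        (fun s' hs' i' hi' => pw_not fun hm => ih s' hs' i' hm hi') s le_rfl
      obtain ⟨s0, hs0, h0⟩ := (mem_Rd P).1 hi
      refine hP (pw (Rd P r z) z x) s0 (s + r) i (by omega) (by rw [h1 s0 hs0.le, h0]) ?_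
      rw [node_add, h1 r le_rfl, h2, hl]
  intro i hi hs
  obtain ⟨x, s, h⟩ := (mem_Sv P).1 hs
  exact key x s i hi h

lemma card_Rd_le (r : ℕ) (z : Fin n → Bool) : #(Rd P r z) ≤ r := by
  calc _ ≤ #((range r).biUnion fun s => ({i | P.lab (P.node z s) = .inl i} : Finset (Fin n))) := by
        refine card_le_card fun i hi => ?_
        obtain ⟨s, hs, h⟩ := (mem_Rd P).1 hi
        exact mem_biUnion.2 ⟨s, mem_range.2 hs, by simpa using h⟩
    _ ≤ #(range r) * 1 := by
        refine card_biUnion_le_card_mul _ _ _ fun s _ => card_le_one.2 fun a ha b hb => ?_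
        have h1 := (mem_filter.1 ha).2
        have h2 := (mem_filter.1 hb).2
        exact Sum.inl_injective (h1.symm.trans h2)
    _ = r := by simp

lemma card_Sv (hP : P.ReadOnce) (r : ℕ) (z : Fin n → Bool) :
    #(Sv P (P.node z r)) ≤ n - r := by
  cases hl : P.lab (P.node z r) with
  | inr c =>
    have : Sv P (P.node z r) = ∅ := by
      refine eq_empty_of_forall_notMem fun i hi => ?_
      obtain ⟨x, s, h⟩ := (mem_Sv P).1 hi
      rw [sink_stay P x hl, hl] at h
      exact Sum.inr_ne_inl h
    simp [this]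
  | inl i0 =>
    have h1 : ∀ s, ∃ i, s < r → P.lab (P.node z s) = .inl i := by
      intro s
      cases hs : P.lab (P.node z s) with
      | inl i => exact ⟨i, fun _ => rfl⟩
      | inr c =>
        refine ⟨i0, fun h => ?_⟩
        obtain ⟨t, rfl⟩ : ∃ t, r = t + s := ⟨r - s, by omega⟩
        rw [node_add, sink_stay P z hs, hs] at hl
        exact hl
    choose g hg using h1
    have h2 : #(range r) ≤ #(Rd P r z) := by
      refine card_le_card_of_injOn g (fun s hs => ?_) fun s hs t ht e => ?_
      · have hs' : s < r := by simpa using hs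
        exact mem_coe.2 ((mem_Rd P).2 ⟨s, hs', hg s hs'⟩)
      · have hs' : s < r := by simpa using hs
        have ht' : t < r := by simpa using ht
        rcases lt_trichotomy s t with h | h | h
        · exact absurd (e ▸ hg t ht') (hP z s t _ h (hg s hs'))
        · exact h
        · exact absurd (e ▸ hg s hs') (hP z t s _ h (hg t ht'))
    have h3 := card_le_univ (Rd P r z ∪ Sv P (P.node z r))
    rw [card_union_of_disjoint (disjoint_left.2 (disj P hP r z))] at h3
    simp only [card_range, Fintype.card_fin] at h2 h3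
    omega

lemma out_eq {f : (Fin n → Bool) → Bool} (hC : P.Computes f) {r : ℕ} (hr : r ≤ n)
    {x x' : Fin n → Bool} (h1 : P.node x' r = P.node x r)
    (h2 : ∀ i ∈ Sv P (P.node x r), x' i = x i) : f x' = f x := by
  have a1 := hC x
  have a2 := hC x'
  have e : ∀ y, P.node y n = (P.step y)^[n - r] (P.node y r) := fun y => by
    rw [← node_add, Nat.sub_add_cancel hr]
  rw [e] at a1 a2
  rw [h1, agree P (P.node x r) x x' (n - r)
    (fun s _ i hi => h2 i ((mem_Sv P).2 ⟨x, s, hi⟩)) _ le_rfl, a1] at a2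
  exact (Sum.inr_injective a2).symm

theorem bp_lower {b : ℕ} (G : Fin n → Fin b → Finset (Fin n)) (J : Finset (Fin n)) (κ : ℕ)
    (hn : 8 * κ + 16 ≤ n) (hb : 4 * n ≤ 2 ^ b)
    (hJ : ∀ j, j ∈ J ↔ Indep univ (G j) (fun _ => ∅))
    (hbad : ∀ T : Finset (Fin n), #T = κ →
      #{j | ¬ ∀ j', j' ≠ j → Indep T (G j) (G j')} ≤ 2 * κ + 2)
    (f : (Fin n → Bool) → Bool) (hf : ∀ x, f x = true ↔ hard G J x)
    (h1 : P.ReadOnce) (h2 : P.Computes f) : 2 ^ n ≤ m * 2 ^ (4 * κ + 3) := by
  have hpick : ∀ U : Finset (Fin n), ∃ W, κ ≤ #U → W ⊆ U ∧ #W = κ := fun U => by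
    by_cases h : κ ≤ #U
    · obtain ⟨W, hW⟩ := exists_subset_card_eq h
      exact ⟨W, fun _ => hW⟩
    · exact ⟨∅, fun h' => absurd h' h⟩
  choose pick hpick using hpick
  have : Nontrivial (Fin n) := Fin.nontrivial_iff_two_le.2 (by omega)
  obtain ⟨r, hr⟩ : ∃ r, r + 2 * κ = n := ⟨n - 2 * κ, by omega⟩
  have hS : ∀ z, #(Sv P (P.node z r)) ≤ 2 * κ := fun z => (card_Sv P h1 r z).trans (by omega)
  obtain ⟨U, hU⟩ : ∃ U : (Fin n → Bool) → Finset (Fin n), ∀ z, U z =
    if κ ≤ #(Sv P (P.node z r)) then Sv P (P.node z r) else (Rd P r z ∪ Sv P (P.node z r))ᶜ :=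
    ⟨_, fun _ => rfl⟩
  have hUc : ∀ z, κ ≤ #(U z) := fun z => by
    rw [hU]
    split_ifs with h
    · exact h
    · have a1 := card_union_le (Rd P r z) (Sv P (P.node z r))
      have a2 := card_Rd_le P r z
      rw [card_compl, Fintype.card_fin]
      omega
  have hUd : ∀ z, ∀ i ∈ Rd P r z, i ∉ pick (U z) := fun z i hi hp => by
    have := (hpick _ (hUc z)).1 hp
    rw [hU] at this
    split_ifs at this with h
    · exact disj P h1 r z i hi this
    · simp [hi] at this
  have hag : ∀ y z, ∀ i ∈ Rd P r z, pw (pick (U z)) y z i = z i :=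
    fun y z i hi => pw_not (hUd z i hi)
  have hnode : ∀ y z, P.node (pw (pick (U z)) y z) r = P.node z r :=
    fun y z => node_agree P (hag y z) r le_rfl
  have hA := atyp (G := G) (J := J) (fun j hj => (hJ j).1 hj) hb (fun z => pick (U z))
    (fun y z => by
      congr 1
      rw [hU (pw (pick (U z)) y z), hnode, Rd_agree P (hag y z), ← hU])
  have hB := low_weight' (n := n) κ hn
  have hown : ∀ (T : Finset (Fin n)) j, (∀ j', j' ≠ j → Indep T (G j) (G j')) →
      Indep T (G j) (fun _ => ∅) ∧ j ∈ J := fun T j h => by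
    obtain ⟨j', hj'⟩ := exists_ne j
    exact ⟨(h j' hj').own le_rfl, (hJ j).2 ((h j' hj').own (subset_univ _))⟩
  have hC : ∀ u : Fin m, #{z | Typ G J (pick (U z)) z ∧ κ ≤ #(Sv P (P.node z r)) ∧
      P.node z r = u} ≤ 2 ^ (4 * κ + 2) := by
    intro u
    rcases eq_empty_or_nonempty ({z | Typ G J (pick (U z)) z ∧ κ ≤ #(Sv P (P.node z r)) ∧
      P.node z r = u} : Finset (Fin n → Bool)) with he | ⟨z0, hz0⟩
    · rw [he]; simp
    obtain ⟨-, b2, b3⟩ := (mem_filter.1 hz0).2
    have b4 := hS z0
    rw [b3] at b2 b4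
    obtain ⟨hT1, hT2⟩ := hpick _ b2
    refine (card_det _ (Sv P u ∪
      univ.filter (fun j => ¬ ∀ j', j' ≠ j → Indep (pick (Sv P u)) (G j) (G j'))) ?_).trans
      (Nat.pow_le_pow_right (by norm_num) ((card_union_le _ _).trans ?_))
    swap
    · have := hbad _ hT2
      omega
    have sym : ∀ z z', (Typ G J (pick (U z)) z ∧ κ ≤ #(Sv P (P.node z r)) ∧ P.node z r = u) →
        (Typ G J (pick (U z')) z' ∧ κ ≤ #(Sv P (P.node z' r)) ∧ P.node z' r = u) →
        (∀ i ∈ Sv P u, z i = z' i) → ∀ j, j ∉ Sv P u →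
        (∀ j', j' ≠ j → Indep (pick (Sv P u)) (G j) (G j')) → z j = true → z' j = true := by
      intro z z' ⟨_, c2, c3⟩ ⟨d1, d2, d3⟩ he j hj hg hz
      have e1 : U z = Sv P u := by rw [hU, if_pos c2, c3]
      have e2 : U z' = Sv P u := by rw [hU, if_pos d2, d3]
      by_contra hz'
      rw [e2] at d1
      refine decodeA (hown _ j hg).2 (fun h => hj (hT1 h)) (hown _ j hg).1 hg hz
        (by simpa using hz') d1 fun y hy => ?_
      have n1 := hnode y z
      have n2 := hnode y z'
      rw [e1, c3] at n1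
      rw [e2, d3] at n2
      rw [← hf] at hy ⊢
      rw [← hy]
      refine out_eq P h2 (r := r) (by omega) (n2.trans n1.symm) fun i hi => ?_
      rw [n1] at hi
      unfold pw
      rw [he i hi]
    intro z hz z' hz' he
    have c := (mem_filter.1 hz).2
    have d := (mem_filter.1 hz').2
    have he' : ∀ i ∈ Sv P u, z i = z' i := fun i hi => he i (mem_union_left _ hi)
    funext j
    by_cases hj : j ∈ Sv P u ∪ univ.filter (fun j => ¬ ∀ j', j' ≠ j → Indep (pick (Sv P u)) (G j) (G j'))
    · exact he j hj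
    · simp only [mem_union, mem_filter, mem_univ, true_and, not_or, not_not] at hj
      exact Bool.eq_iff_iff.2 ⟨sym z z' c d he' j hj.1 hj.2,
        sym z' z d c (fun i hi => (he' i hi).symm) j hj.1 hj.2⟩
  have hD : ∀ z, Typ G J (pick (U z)) z → ¬ κ ≤ #(Sv P (P.node z r)) →
      ones univ z ≤ 3 * κ + 2 := by
    intro z ht hc
    obtain ⟨hT1, hT2⟩ := hpick _ (hUc z)
    have hconst : ∀ y, f (pw (pick (U z)) y z) = f z := fun y =>
      out_eq P h2 (r := r) (by omega) (hnode y z) fun i hi => pw_not fun hp => by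
        have := hT1 hp
        rw [hU, if_neg hc] at this
        simp [hi] at this
    refine (card_le_card (t := pick (U z) ∪
      univ.filter (fun j => ¬ ∀ j', j' ≠ j → Indep (pick (U z)) (G j) (G j'))) fun j hj => ?_).trans
      ((card_union_le _ _).trans ?_)
    · by_contra hj'
      simp only [mem_union, mem_filter, mem_univ, true_and, not_or, not_not] at hj'
      refine decodeB (hown _ j hj'.2).2 hj'.1 (hown _ j hj'.2).1 (mem_filter.1 hj).2 ht
        fun y y' hy => ?_
      rw [← hf, hconst] at hy ⊢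
      exact hy
    · have := hbad _ hT2
      omega
  have hE : #(univ : Finset (Fin n → Bool)) ≤ #{z | ¬ Typ G J (pick (U z)) z}
      + #{z : Fin n → Bool | ones univ z ≤ 3 * κ + 2} + m * 2 ^ (4 * κ + 2) := by
    have a1 := card_biUnion_le_card_mul (univ : Finset (Fin m)) _ _ fun u _ => hC u
    rw [card_univ, Fintype.card_fin] at a1
    refine le_trans (card_le_card fun z _ => ?_) ((card_union_le _ _).trans
      (Nat.add_le_add (card_union_le _ _) a1))
    by_cases c1 : Typ G J (pick (U z)) z
    · by_cases c2 : κ ≤ #(Sv P (P.node z r))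
      · exact mem_union_right _ (mem_biUnion.2 ⟨_, mem_univ _,
          mem_filter.2 ⟨mem_univ _, c1, c2, rfl⟩⟩)
      · exact mem_union_left _ (mem_union_right _ (mem_filter.2 ⟨mem_univ _, hD z c1 c2⟩))
    · exact mem_union_left _ (mem_union_left _ (mem_filter.2 ⟨mem_univ _, c1⟩))
  simp only [card_univ, Fintype.card_fun, Fintype.card_bool, Fintype.card_fin] at hE
  rw [pow_succ, ← mul_assoc]
  omega

end Pool.Agent.MP_ed3b92_lc
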