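import Mathlib
import Pool.Agent.MP_ed3b92_lc.Main
import Pool.Agent.MP_ed3b92_lc.Prog

namespace Pool.Agent.MP_ed3b92_lc

/-- The earlier, weaker form (read-once branching programs only); not a hand-in any more. -/
theorem old_fbdd :
    ∃ C : ℕ, ∀ n k : ℕ, C * (Nat.log 2 n + 1) ≤ k → k ≤ n →
      ∃ F : Fm n, F.size * k ^ 2 ≤ C * n ^ 3 * (Nat.log 2 n + 1) ^ 3 ∧
        ∀ (m : ℕ) (P : BP n m), P.ReadOnce → P.Computes F.eval → 2 ^ (n - k) ≤ m := by
  refine ⟨1000000, fun n k hk hkn => ?_⟩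
  obtain ⟨F, h0, b, G, J, κ, h1, h2, h3, h4, h5⟩ := system n k hk hkn
  refine ⟨F, h0, fun m P r1 r2 => ?_⟩
  have h := bp_lower P G J κ (h1.trans hkn) h2 h3 h4 F.eval h5 r1 r2
  refine Nat.le_of_mul_le_mul_right (le_trans ?_ h) (by positivity)
  rw [← pow_add]
  exact Nat.pow_le_pow_right (by norm_num) (by omega)

end Pool.Agent.MP_ed3b92_lc
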