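import Mathlib
import Pool.Agent.MP_ed3b92_lc.TSMain

namespace Pool.Agent.MP_ed3b92_lc

/-- The earlier form (nodes against shared nodes, all gates); not a hand-in any more. -/
theorem old_shared :
    ∃ C : ℕ, ∀ n k s : ℕ, C * (Nat.log 2 n + 1) ≤ k → k ≤ s → s ≤ n →
      ∃ F : Fm n, F.size * k ^ 2 ≤ C * s * n ^ 2 * (Nat.log 2 n + 1) ^ 3 ∧
        ∀ (m : ℕ) (P : DD n m), P.Valid → P.Computes F.eval →
          2 ^ (n - k) ≤ m ∨ 2 ^ (s - k) ≤ P.shared :=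
  ⟨10 ^ 10, ts_main⟩

end Pool.Agent.MP_ed3b92_lc
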